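import Mathlib
import Pool.Agent.Helper669.Forcing2
import Pool.Agent.Helper669.Dom

set_option autoImplicit false

/-!
# Random forcing
-/

namespace Pool.Agent.W905.Rand

open Cardinal MeasureTheory Set ProbabilityTheory Pool.Agent.Helper669.Forcing
  Pool.Agent.Helper669.Forcing2

open scoped ENNReal

universe u v w

/-- The fair coin measure on `{0, 1}`. -/
noncomputable def coin : Measure Bool := (PMF.uniformOfFintype Bool).toMeasure

instance : IsProbabilityMeasure coin := by unfold coin; infer_instance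

theorem coin_singleton (b : Bool) : coin {b} = 2⁻¹ := by
  unfold coin
  rw [PMF.toMeasure_apply_singleton _ _ (measurableSet_singleton b)]
  simp

/-- The product measure on `2^(Λ × ω)`. -/
noncomputable def vol (Λ : Type u) : Measure (Λ × ℕ → Bool) :=
  Measure.infinitePi fun _ : Λ × ℕ => coin

instance (Λ : Type u) : IsProbabilityMeasure (vol Λ) := by unfold vol; infer_instance

/-- The forcing notion which adds random reals indexed by `Λ`: the conditions are the measurable
subsets of `2^(Λ × ω)` of positive measure. -/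
structure RandomForcing (Λ : Type u) where
  /-- the measurable set -/
  carrier : Set (Λ × ℕ → Bool)
  meas : MeasurableSet carrier
  pos : vol Λ carrier ≠ 0

/-- `A ≤ B` if `A` is contained in `B` modulo a null set. -/
instance (Λ : Type u) : Preorder (RandomForcing Λ) where
  le A B := vol Λ (A.carrier \ B.carrier) = 0
  le_refl A := by simp
  le_trans A B C hAB hBC := by
    refine measure_mono_null ?_ (measure_union_null hAB hBC)
    intro x hx
    by_cases h : x ∈ B.carrier
    · exact Or.inr ⟨h, hx.2⟩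
    · exact Or.inl ⟨hx.1, h⟩

section

variable {Λ : Type u}

theorem le_def {A B : RandomForcing Λ} : A ≤ B ↔ vol Λ (A.carrier \ B.carrier) = 0 := Iff.rfl

theorem le_of_subset {A B : RandomForcing Λ} (h : A.carrier ⊆ B.carrier) : A ≤ B := by
  rw [le_def, sdiff_eq_empty.2 h, measure_empty]

theorem null_of_le {A B : RandomForcing Λ} (h : A ≤ B) {S : Set (Λ × ℕ → Bool)}
    (hS : vol Λ (B.carrier ∩ S) = 0) : vol Λ (A.carrier ∩ S) = 0 := by
  refine measure_mono_null ?_ (measure_union_null (le_def.1 h) hS)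
  intro x hx
  by_cases hB : x ∈ B.carrier
  · exact Or.inr ⟨hB, hx.2⟩
  · exact Or.inl ⟨hx.1, hB⟩

/-- the intersection with a measurable set as a condition -/
def inter (A : RandomForcing Λ) (S : Set (Λ × ℕ → Bool)) (hS : MeasurableSet S)
    (h : vol Λ (A.carrier ∩ S) ≠ 0) : RandomForcing Λ := ⟨A.carrier ∩ S, A.meas.inter hS, h⟩

theorem inter_le (A : RandomForcing Λ) (S : Set (Λ × ℕ → Bool)) (hS : MeasurableSet S)
    (h : vol Λ (A.carrier ∩ S) ≠ 0) : inter A S hS h ≤ A := le_of_subset inter_subset_left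

theorem pos_of_le {A B : RandomForcing Λ} (h : A ≤ B) : vol Λ (A.carrier ∩ B.carrier) ≠ 0 := by
  intro h0
  apply A.pos
  have := measure_union_null (le_def.1 h) h0
  rwa [sdiff_union_inter] at this

/-! ### The countable chain condition -/

theorem ccc {Y : Type v} (f : Y → RandomForcing Λ) (hY : ¬ Countable Y) :
    ∃ y y', y ≠ y' ∧ ∃ s, s ≤ f y ∧ s ≤ f y' := by
  by_contra hcon
  push Not at hcon
  have hd : Pairwise (Function.onFun (AEDisjoint (vol Λ)) fun y => (f y).carrier) := by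
    intro y y' hne
    by_contra h
    exact hcon y y' hne ⟨_, (f y).meas.inter (f y').meas, h⟩ (le_of_subset inter_subset_left)
      (le_of_subset inter_subset_right)
  have h1 := Measure.countable_meas_pos_of_disjoint_iUnion₀
    (fun y => (f y).meas.nullMeasurableSet) hd
  apply hY
  have h2 : {y | 0 < vol Λ (f y).carrier} = Set.univ :=
    Set.eq_univ_of_forall fun y => pos_iff_ne_zero.2 (f y).pos
  rw [h2] at h1
  exact countable_univ_iff.1 h1

theorem exists_compat_same {X Z : Type v} (h : #Z * ℵ₀ < #X) (f : X → RandomForcing Λ) (z : X → Z) :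
    ∃ x x', x ≠ x' ∧ z x = z x' ∧ ∃ s, s ≤ f x ∧ s ≤ f x' := by
  have h1 : ∃ c, ¬ Countable {x // z x = c} := by
    by_contra hcon
    push Not at hcon
    have h2 : #X = Cardinal.sum fun c => #{x // z x = c} := by
      rw [← mk_sigma]
      exact (Equiv.sigmaFiberEquiv z).symm.cardinal_eq
    have h3 : #X ≤ #Z * ℵ₀ := by
      rw [h2]
      refine (Cardinal.sum_le_sum _ (fun _ => ℵ₀) fun c => ?_).trans ?_
      · have := hcon c
        exact mk_le_aleph0
      · rw [Cardinal.sum_const']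
    exact absurd h3 (not_le.2 h)
  obtain ⟨c, hc⟩ := h1
  obtain ⟨y, y', hne, hcomp⟩ := ccc (fun x : {x // z x = c} => f x.1) hc
  exact ⟨y.1, y'.1, fun h => hne (Subtype.ext h), y.2.trans y'.2.symm, hcomp⟩

theorem cardinalsPreserved (p : RandomForcing Λ) : p ∈ CardinalsPreserved.{u, v} (RandomForcing Λ) := by
  intro μ ν hμν hν q _ hq
  obtain ⟨r, _, R, hR1, hR2⟩ := mem_fex.1 hq q le_rfl
  have h1 : ∀ y : ν.out, ∃ s ≤ r, ∃ x : μ.out, s ∈ meets (R x y) := fun y =>
    mem_fex.1 (hR2 y) r le_rfl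
  choose f hf x hx using h1
  obtain ⟨y, y', hne, hz, s, hs1, hs2⟩ := exists_compat_same (X := ν.out) (Z := μ.out) (by
    rw [mk_out, mk_out]
    exact mul_lt_of_lt hν.le hμν hν) f x
  apply hne
  refine IsFun.unique (down_IsFun R r hR1 s (hs1.trans (hf y))) (down_meets _ _ (hx y) s hs1) ?_
  rw [hz]
  exact down_meets _ _ (hx y') s hs2

/-! ### Boolean values -/

/-- The Boolean value of the statement that the generic filter meets `N`. -/
theorem exists_value (N : Set (RandomForcing Λ)) : ∃ b : Set (Λ × ℕ → Bool), MeasurableSet b ∧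
    ∀ r : RandomForcing Λ, r ∈ meets N ↔ vol Λ (r.carrier \ b) = 0 := by
  classical
  -- the supremum of the measures of countable unions
  let V : Set ℝ≥0∞ := {t | ∃ F : ℕ → Set (Λ × ℕ → Bool),
    (∀ n, F n = ∅ ∨ ∃ s ∈ N, F n = s.carrier) ∧ t = vol Λ (⋃ n, F n)}
  have hV0 : V.Nonempty := ⟨_, fun _ => ∅, fun _ => Or.inl rfl, rfl⟩
  obtain ⟨t, -, ht, htV⟩ := exists_seq_tendsto_sSup hV0 (OrderTop.bddAbove V)
  choose F hF1 hF2 using htV
  let G : ℕ → Set (Λ × ℕ → Bool) := fun k => F (Nat.unpair k).1 (Nat.unpair k).2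
  have hG : ∀ n, G n = ∅ ∨ ∃ s ∈ N, G n = s.carrier := fun n => hF1 _ _
  set b : Set (Λ × ℕ → Bool) := ⋃ n, G n with hb
  have hFb : ∀ n, (⋃ m, F n m) ⊆ b := by
    intro n
    refine iUnion_subset fun m => ?_
    refine subset_iUnion_of_subset (Nat.pair n m) ?_
    simp [G]
  have hbm : MeasurableSet b := by
    refine MeasurableSet.iUnion fun n => ?_
    rcases hG n with h | ⟨s, -, h⟩
    · rw [h]; exact MeasurableSet.empty
    · rw [h]; exact s.meas
  have hbV : vol Λ b ∈ V := ⟨G, hG, rfl⟩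
  have hsup : sSup V ≤ vol Λ b := by
    refine le_of_tendsto ht (Filter.Eventually.of_forall fun n => ?_)
    rw [hF2 n]
    exact measure_mono (hFb n)
  have hmax : ∀ s ∈ N, vol Λ (s.carrier \ b) = 0 := by
    intro s hs
    have h1 : vol Λ (s.carrier ∪ b) ∈ V := by
      refine ⟨fun n => Nat.casesOn n s.carrier G, ?_, ?_⟩
      · intro n
        cases n with
        | zero => exact Or.inr ⟨s, hs, rfl⟩
        | succ n => exact hG n
      · congr 1
        ext x
        simp only [mem_union, hb, mem_iUnion]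
        constructor
        · rintro (h | ⟨n, h⟩)
          · exact ⟨0, h⟩
          · exact ⟨n + 1, h⟩
        · rintro ⟨n, h⟩
          cases n with
          | zero => exact Or.inl h
          | succ n => exact Or.inr ⟨n, h⟩
    have h2 : vol Λ (s.carrier ∪ b) ≤ vol Λ b := (le_sSup h1).trans hsup
    have h3 : vol Λ (s.carrier ∪ b) = vol Λ b + vol Λ (s.carrier \ b) := by
      rw [← measure_union disjoint_sdiff_right (s.meas.diff hbm), union_sdiff_self, union_comm]
    rw [h3] at h2
    by_contra hne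
    have h4 : vol Λ b < vol Λ b + vol Λ (s.carrier \ b) :=
      ENNReal.lt_add_right (measure_ne_top _ _) hne
    exact absurd h2 (not_le.2 h4)
  refine ⟨b, hbm, fun r => ⟨fun h => ?_, fun h => ?_⟩⟩
  · by_contra hne
    obtain ⟨r', hr', s, hs, hle⟩ := h ⟨r.carrier \ b, r.meas.diff hbm, hne⟩
      (le_of_subset sdiff_subset)
    apply r'.pos
    have e1 : vol Λ (r'.carrier \ s.carrier) = 0 := hle
    have e2 : vol Λ (r'.carrier \ (r.carrier \ b)) = 0 := hr'
    refine measure_mono_null ?_ (measure_union_null e1 (measure_union_null e2 (hmax s hs)))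
    intro x hx
    by_cases h1 : x ∈ s.carrier
    · by_cases h2 : x ∈ b
      · exact Or.inr (Or.inl ⟨hx, fun h3 => h3.2 h2⟩)
      · exact Or.inr (Or.inr ⟨h1, h2⟩)
    · exact Or.inl ⟨hx, h1⟩
  · intro q hq
    have h1 : vol Λ (q.carrier ∩ b) ≠ 0 := by
      intro h0
      apply q.pos
      have e2 : vol Λ (q.carrier \ r.carrier) = 0 := hq
      refine measure_mono_null ?_ (measure_union_null h0 (measure_union_null e2 h))
      intro x hx
      by_cases h1 : x ∈ b
      · exact Or.inl ⟨hx, h1⟩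
      · by_cases h2 : x ∈ r.carrier
        · exact Or.inr (Or.inr ⟨h2, h1⟩)
        · exact Or.inr (Or.inl ⟨hx, h2⟩)
    have h2 : ∃ n, vol Λ (q.carrier ∩ G n) ≠ 0 := by
      by_contra hcon
      push Not at hcon
      apply h1
      rw [hb, inter_iUnion]
      exact measure_iUnion_null hcon
    obtain ⟨n, hn⟩ := h2
    rcases hG n with h3 | ⟨s, hs, h3⟩
    · rw [h3, inter_empty, measure_empty] at hn
      exact absurd rfl hn
    · rw [h3] at hn
      exact ⟨inter q s.carrier s.meas hn, inter_le _ _ _ _, s, hs, le_of_subset inter_subset_right⟩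

/-! ### Supports and independence -/

/-- the `σ`-algebra generated by the coordinates in `D` -/
@[instance_reducible]
def coordAlg (D : Set (Λ × ℕ)) : MeasurableSpace (Λ × ℕ → Bool) :=
  ⨆ i ∈ D, MeasurableSpace.comap (fun x : Λ × ℕ → Bool => x i) inferInstance

theorem coordAlg_mono {D D' : Set (Λ × ℕ)} (h : D ⊆ D') : coordAlg D ≤ coordAlg D' :=
  biSup_mono h

theorem exists_support {S : Set (Λ × ℕ → Bool)} (hS : MeasurableSet S) :
    ∃ D : Set (Λ × ℕ), D.Countable ∧ MeasurableSet[coordAlg D] S := by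
  let m' : MeasurableSpace (Λ × ℕ → Bool) :=
    { MeasurableSet' := fun S => ∃ D : Set (Λ × ℕ), D.Countable ∧ MeasurableSet[coordAlg D] S
      measurableSet_empty := ⟨∅, countable_empty, @MeasurableSet.empty _ (coordAlg ∅)⟩
      measurableSet_compl := by
        rintro s ⟨D, hD, h⟩
        exact ⟨D, hD, @MeasurableSet.compl _ _ (coordAlg D) h⟩
      measurableSet_iUnion := by
        intro f hf
        choose D hD h using hf
        refine ⟨⋃ n, D n, countable_iUnion hD, ?_⟩
        refine @MeasurableSet.iUnion _ _ (coordAlg (⋃ n, D n)) _ _ fun n => ?_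
        exact coordAlg_mono (subset_iUnion D n) _ (h n) }
  have hle : (MeasurableSpace.pi : MeasurableSpace (Λ × ℕ → Bool)) ≤ m' := by
    refine iSup_le fun i => ?_
    intro s hs
    refine ⟨{i}, countable_singleton i, ?_⟩
    exact (le_iSup₂ (f := fun (j : Λ × ℕ) (_ : j ∈ ({i} : Set (Λ × ℕ))) =>
      MeasurableSpace.comap (fun x : Λ × ℕ → Bool => x j) inferInstance) i
        (mem_singleton i)) _ hs
  exact hle S hS

theorem indep {D D' : Set (Λ × ℕ)} (h : Disjoint D D') :
    Indep (coordAlg D) (coordAlg D') (vol Λ) := by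
  have h1 : iIndepFun (fun (i : Λ × ℕ) (x : Λ × ℕ → Bool) => x i) (vol Λ) :=
    iIndepFun_infinitePi (X := fun _ x => x) (fun _ => measurable_id)
  exact indep_iSup_of_disjoint (fun i => (measurable_pi_apply i).comap_le) h1.iIndep h

theorem vol_fix (ξ : Λ) (i : Bool) (F : Finset ℕ) :
    vol Λ {x | ∀ n ∈ F, x (ξ, n) = i} = 2⁻¹ ^ F.card := by
  classical
  have h1 : {x : Λ × ℕ → Bool | ∀ n ∈ F, x (ξ, n) = i} =
      Set.pi ((F.image fun n => (ξ, n) : Finset (Λ × ℕ)) : Set (Λ × ℕ)) fun _ => {i} := by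
    ext x
    simp only [mem_ofPred_eq, Set.mem_pi, Finset.coe_image, mem_image, Finset.mem_coe,
      mem_singleton_iff]
    constructor
    · rintro h _ ⟨n, hn, rfl⟩
      exact h n hn
    · intro h n hn
      exact h _ ⟨n, hn, rfl⟩
  rw [h1, vol, Measure.infinitePi_pi _ (fun _ _ => measurableSet_singleton i)]
  rw [Finset.prod_congr rfl fun _ _ => coin_singleton i, Finset.prod_const,
    Finset.card_image_of_injective _ (fun a b h => (Prod.ext_iff.1 h).2)]

/-- A random real splits every infinite set of the extension by the other coordinates. -/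
theorem null_split {b : ℕ → Set (Λ × ℕ → Bool)} {D : Set (Λ × ℕ)}
    (hb : ∀ n, MeasurableSet[coordAlg D] (b n)) {ξ : Λ} (hξ : ∀ m, (ξ, m) ∉ D) (i : Bool) :
    vol Λ {x | (∀ m, ∃ n, m ≤ n ∧ x ∈ b n) ∧ ∀ n, x ∈ b n → x (ξ, n) = i} = 0 := by
  classical
  set Z := {x : Λ × ℕ → Bool | (∀ m, ∃ n, m ≤ n ∧ x ∈ b n) ∧ ∀ n, x ∈ b n → x (ξ, n) = i}
    with hZ
  let H : Finset ℕ → Set (Λ × ℕ → Bool) := fun F => {x | ∀ n ≤ F.sup id, (n ∈ F ↔ x ∈ b n)}
  let G : Finset ℕ → Set (Λ × ℕ → Bool) := fun F => {x | ∀ n ∈ F, x (ξ, n) = i}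
  have hle : ∀ D : Set (Λ × ℕ), coordAlg D ≤ MeasurableSpace.pi :=
    fun D => iSup₂_le fun i _ => (measurable_pi_apply i).comap_le
  have hHm : ∀ F, MeasurableSet[coordAlg D] (H F) := by
    intro F
    have e : H F = ⋂ n ∈ Finset.range (F.sup id + 1), (if n ∈ F then b n else (b n)ᶜ) := by
      ext x
      simp only [H, mem_ofPred_eq, mem_iInter, Finset.mem_range, Nat.lt_succ_iff]
      refine forall₂_congr fun n _ => ?_
      by_cases h : n ∈ F
      · simp [h]
      · simp [h]
    rw [e]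
    refine Finset.measurableSet_biInter _ fun n _ => ?_
    split_ifs
    · exact hb n
    · exact @MeasurableSet.compl _ _ (coordAlg D) (hb n)
  have hGm : ∀ F, MeasurableSet[coordAlg {z : Λ × ℕ | z.1 = ξ}] (G F) := by
    intro F
    have e : G F = ⋂ n ∈ F, (fun x : Λ × ℕ → Bool => x (ξ, n)) ⁻¹' {i} := by
      ext x
      simp [G]
    rw [e]
    refine Finset.measurableSet_biInter _ fun n _ => ?_
    have h1 : MeasurableSet[MeasurableSpace.comap (fun x : Λ × ℕ → Bool => x (ξ, n))
        inferInstance] ((fun x : Λ × ℕ → Bool => x (ξ, n)) ⁻¹' {i}) :=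
      ⟨{i}, measurableSet_singleton i, rfl⟩
    exact (le_iSup₂ (f := fun (j : Λ × ℕ) (_ : j ∈ {z : Λ × ℕ | z.1 = ξ}) =>
      MeasurableSpace.comap (fun x : Λ × ℕ → Bool => x j) inferInstance) (ξ, n) rfl) _ h1
  have hdisj : Disjoint D {z : Λ × ℕ | z.1 = ξ} := by
    rw [Set.disjoint_left]
    rintro ⟨a, m⟩ h1 h2
    have h2' : a = ξ := h2
    subst h2'
    exact hξ m h1
  have hind : ∀ F, vol Λ (H F ∩ G F) = vol Λ (H F) * 2⁻¹ ^ F.card := by
    intro F
    rw [← vol_fix ξ i F]
    exact (Indep_iff _ _ _).1 (indep hdisj) _ _ (hHm F) (hGm F)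
  have hbound : ∀ M : ℕ, vol Λ Z ≤ 2⁻¹ ^ (M + 1) := by
    intro M
    let T := {F : Finset ℕ // F.card = M + 1}
    have hcover : Z ⊆ ⋃ F : T, H F.1 ∩ G F.1 := by
      rintro x ⟨hx1, hx2⟩
      have hinf : (Set.ofPred fun n => x ∈ b n).Infinite := by
        rw [Set.infinite_iff_exists_gt]
        intro a
        obtain ⟨n, hn, hxn⟩ := hx1 (a + 1)
        exact ⟨n, hxn, by omega⟩
      let N := Nat.nth (fun n => x ∈ b n) (M + 1)
      let F : Finset ℕ := (Finset.range N).filter fun n => x ∈ b n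
      have hcard : F.card = M + 1 := by
        rw [← Nat.count_eq_card_filter_range, Nat.count_nth_of_infinite hinf]
      refine mem_iUnion.2 ⟨⟨F, hcard⟩, ?_, ?_⟩
      · intro n hn
        have hne : F.Nonempty := by
          rw [← Finset.card_pos, hcard]; omega
        obtain ⟨m, hm, hm'⟩ := Finset.exists_mem_eq_sup F hne id
        rw [hm'] at hn
        have hmN : m < N := Finset.mem_range.1 (Finset.mem_filter.1 hm).1
        have hn' : n ≤ m := hn
        simp only [F, Finset.mem_filter, Finset.mem_range]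
        exact ⟨fun h => h.2, fun h => ⟨by omega, h⟩⟩
      · intro n hn
        exact hx2 n (Finset.mem_filter.1 hn).2
    have hHd : Pairwise (Function.onFun Disjoint fun F : T => H F.1) := by
      intro F F' hne
      rw [Function.onFun, Set.disjoint_left]
      intro x hx hx'
      apply hne
      apply Subtype.ext
      rcases le_total (F.1.sup id) (F'.1.sup id) with h | h
      · refine Finset.eq_of_subset_of_card_le (fun n hn => ?_) (by rw [F.2, F'.2])
        have h1 : n ≤ F.1.sup id := Finset.le_sup (f := id) hn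
        exact (hx' n (h1.trans h)).2 ((hx n h1).1 hn)
      · refine (Finset.eq_of_subset_of_card_le (fun n hn => ?_) (by rw [F.2, F'.2])).symm
        have h1 : n ≤ F'.1.sup id := Finset.le_sup (f := id) hn
        exact (hx n (h1.trans h)).2 ((hx' n h1).1 hn)
    calc vol Λ Z ≤ vol Λ (⋃ F : T, H F.1 ∩ G F.1) := measure_mono hcover
      _ ≤ ∑' F : T, vol Λ (H F.1 ∩ G F.1) := measure_iUnion_le _
      _ = ∑' F : T, vol Λ (H F.1) * 2⁻¹ ^ (M + 1) := by
        refine tsum_congr fun F => ?_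
        rw [hind, F.2]
      _ = (∑' F : T, vol Λ (H F.1)) * 2⁻¹ ^ (M + 1) := ENNReal.tsum_mul_right
      _ = vol Λ (⋃ F : T, H F.1) * 2⁻¹ ^ (M + 1) := by
        rw [measure_iUnion hHd fun F => hle D _ (hHm F.1)]
      _ ≤ 1 * 2⁻¹ ^ (M + 1) := by gcongr; exact prob_le_one
      _ = 2⁻¹ ^ (M + 1) := one_mul _
  have hlim : Filter.Tendsto (fun M : ℕ => (2⁻¹ : ℝ≥0∞) ^ (M + 1)) Filter.atTop (nhds 0) := by
    refine (Filter.tendsto_add_atTop_iff_nat 1).2 ?_
    exact ENNReal.tendsto_pow_atTop_nhds_zero_of_lt_one (by simp)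
  exact le_antisymm (ge_of_tendsto' hlim hbound) bot_le

/-! ### The strong polarized relation -/

/-- a set of full size in an uncountable index set has uncountably many possible members -/
theorem uncountable_targets {K : Type v} (hK : ¬ Countable K) {A : K → Set (RandomForcing Λ)}
    {p : RandomForcing Λ} (hp : p ∈ HasFullSize A) :
    ¬ {k | ∃ r ≤ p, r ∈ meets (A k)}.Countable := by
  intro hcount
  obtain ⟨s, hs, R, hR1, hR2, hR3⟩ := mem_fex.1 hp p le_rfl
  have h1 : ∀ x : K, ∃ t ≤ s, ∃ y, t ∈ meets (R x y) ∧ t ∈ meets (A y) := by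
    intro x
    obtain ⟨t, ht, y, hy⟩ := mem_fex.1 (hR1.1 x) s le_rfl
    obtain ⟨t', ht', h'⟩ := mem_fimp.1 (hR3 x y) t ht hy
    exact ⟨t', ht'.trans ht, y, down_meets _ _ hy _ ht', h'⟩
  choose t ht y hy hy' using h1
  have hT : #{k | ∃ r ≤ p, r ∈ meets (A k)} ≤ ℵ₀ := Cardinal.le_aleph0_iff_set_countable.2 hcount
  have hKc : ℵ₀ < #K := by
    rw [← not_le, Cardinal.mk_le_aleph0_iff]
    exact hK
  let y' : K → {k | ∃ r ≤ p, r ∈ meets (A k)} := fun x => ⟨y x, t x, (ht x).trans hs, hy' x⟩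
  obtain ⟨x, x', hne, hz, u, hu1, hu2⟩ := exists_compat_same (X := K)
    (Z := {k | ∃ r ≤ p, r ∈ meets (A k)})
    ((mul_le_mul' hT le_rfl).trans_lt (by rwa [Cardinal.aleph0_mul_aleph0])) t y'
  have hyy : y x = y x' := congrArg Subtype.val hz
  apply hne
  refine IsInj.eq (down_IsInj R s hR2 u (hu1.trans (ht x))) (down_meets _ _ (hy x) u hu1) ?_
  rw [hyy]
  exact down_meets _ _ (hy x') u hu2

/-- The strong polarized relation fails for all uncountable cardinals up to the number of random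
reals. -/
theorem not_polarized {K : Type v} (hK : ¬ Countable K) (j : K ↪ Λ) (p : RandomForcing Λ) :
    p ∈ fnot (Polarized (RandomForcing Λ) K ℕ) := by
  classical
  intro q _ hpol
  have hCm : ∀ (k : K) (n : ℕ) (i : Bool), MeasurableSet {x : Λ × ℕ → Bool | x (j k, n) = i} :=
    fun k n i => (measurableSet_singleton i).preimage (measurable_pi_apply (j k, n))
  have hCpos : ∀ (k : K) (n : ℕ), vol Λ {x : Λ × ℕ → Bool | x (j k, n) = true} ≠ 0 := by
    intro k n
    have := vol_fix (j k) true {n}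
    simp only [Finset.mem_singleton, forall_eq, Finset.card_singleton, pow_one] at this
    rw [this]
    simp
  let c : K → ℕ → Set (RandomForcing Λ) := fun k n => {⟨_, hCm k n true, hCpos k n⟩}
  obtain ⟨q1, _, A, hA⟩ := mem_fex.1 (hpol c) q le_rfl
  obtain ⟨q2, _, B, hfA, hfB, hor⟩ := mem_fex.1 hA q1 le_rfl
  -- the two colours
  have hcol : ∃ q3 ≤ q2, ∃ i : Bool, ∀ k n, ∀ r ≤ q3, r ∈ meets (A k) → r ∈ meets (B n) →
      vol Λ (r.carrier ∩ {x | x (j k, n) ≠ i}) = 0 := by
    obtain ⟨q3, h3, hor' | hor'⟩ := mem_for.1 hor q2 le_rfl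
    · refine ⟨q3, h3, true, fun k n r hr hrA hrB => ?_⟩
      by_contra hne
      have hm : MeasurableSet {x : Λ × ℕ → Bool | x (j k, n) ≠ true} := (hCm k n true).compl
      have hle := inter_le r _ hm hne
      obtain ⟨s, hs, hs'⟩ := mem_fimp.1 (hor' k n) (inter r _ hm hne) (hle.trans hr)
        ⟨down_meets _ _ hrA _ hle, down_meets _ _ hrB _ hle⟩
      obtain ⟨s', hs1, t, ht, hle'⟩ := hs' s le_rfl
      obtain rfl : t = _ := ht
      have h1 : s' ≤ inter r _ hm hne := hs1.trans hs
      apply s'.pos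
      refine measure_mono_null ?_ (measure_union_null (le_def.1 h1) (le_def.1 hle'))
      intro x hx
      by_cases hxt : x (j k, n) = true
      · exact Or.inl ⟨hx, fun h => h.2 hxt⟩
      · exact Or.inr ⟨hx, hxt⟩
    · refine ⟨q3, h3, false, fun k n r hr hrA hrB => ?_⟩
      by_contra hne
      have hm : MeasurableSet {x : Λ × ℕ → Bool | x (j k, n) ≠ false} := (hCm k n false).compl
      have hle := inter_le r _ hm hne
      obtain ⟨s, hs, hs'⟩ := mem_fimp.1 (hor' k n) (inter r _ hm hne) (hle.trans hr)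
        ⟨down_meets _ _ hrA _ hle, down_meets _ _ hrB _ hle⟩
      refine hs' s le_rfl (meets_of_le (s := ⟨_, hCm k n true, hCpos k n⟩) rfl ?_)
      refine hs.trans (le_of_subset fun x hx => ?_)
      have h2 : x (j k, n) ≠ false := hx.2
      show x (j k, n) = true
      cases hb : x (j k, n)
      · exact absurd hb h2
      · rfl
  obtain ⟨q3, h3, i, hi⟩ := hcol
  have hfA3 := down_HasFullSize _ _ hfA _ h3
  have hfB3 := down_HasFullSize _ _ hfB _ h3
  -- the Boolean values of `n ∈ B` and their supports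
  choose b hbm hb using fun n => exists_value (B n)
  choose D hDc hD using fun n => exists_support (hbm n)
  have hDu : (⋃ n, D n).Countable := countable_iUnion hDc
  obtain ⟨k, hk1, hk2⟩ : ∃ k, (∃ r ≤ q3, r ∈ meets (A k)) ∧ ∀ m, (j k, m) ∉ ⋃ n, D n := by
    by_contra hcon
    push Not at hcon
    refine uncountable_targets hK hfA3 ?_
    have h4 : ((j : K → Λ) ⁻¹' (Prod.fst '' ⋃ n, D n)).Countable :=
      (hDu.image _).preimage_of_injOn j.injective.injOn
    refine h4.mono ?_
    rintro k ⟨r, hr, hr'⟩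
    obtain ⟨m, hm⟩ := hcon k ⟨r, hr, hr'⟩
    exact ⟨(j k, m), hm, rfl⟩
  obtain ⟨r, hr, hrA⟩ := hk1
  apply r.pos
  have hZ := null_split (Λ := Λ) (b := b) (D := ⋃ n, D n)
    (fun n => coordAlg_mono (subset_iUnion D n) _ (hD n)) hk2 i
  -- infinitely many
  have h5 : ∀ m, vol Λ (r.carrier \ ⋃ n, b (m + n)) = 0 := by
    intro m
    by_contra hne
    have hm : MeasurableSet (⋃ n, b (m + n)) := MeasurableSet.iUnion fun n => hbm _
    have hle : (⟨_, r.meas.diff hm, hne⟩ : RandomForcing Λ) ≤ r := le_of_subset sdiff_subset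
    obtain ⟨s, hs, n, hn, hsn⟩ := exists_mem_ge
      (down_HasFullSize _ _ hfB3 _ (hle.trans hr)) m
    apply s.pos
    refine measure_mono_null ?_ (measure_union_null (le_def.1 hs) ((hb n s).1 hsn))
    intro x hx
    by_cases hxb : x ∈ b n
    · refine Or.inl ⟨hx, fun h => h.2 (mem_iUnion.2 ⟨n - m, ?_⟩)⟩
      rwa [Nat.add_sub_cancel' hn]
    · exact Or.inr ⟨hx, hxb⟩
  have h6 : ∀ n, vol Λ (r.carrier ∩ b n ∩ {x | x (j k, n) ≠ i}) = 0 := by
    intro n
    by_cases h0 : vol Λ (r.carrier ∩ b n) = 0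
    · exact measure_mono_null inter_subset_left h0
    · have hle := inter_le r (b n) (hbm n) h0
      refine hi k n (inter r (b n) (hbm n) h0) (hle.trans hr) (down_meets _ _ hrA _ hle) ?_
      refine (hb n _).2 ?_
      show vol Λ ((r.carrier ∩ b n) \ b n) = 0
      rw [sdiff_eq_empty.2 inter_subset_right, measure_empty]
  refine measure_mono_null ?_ (measure_union_null hZ (measure_union_null
    (measure_iUnion_null h5) (measure_iUnion_null h6)))
  intro x hx
  by_cases h7 : ∀ m, x ∈ ⋃ n, b (m + n)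
  · by_cases h8 : ∀ n, x ∈ b n → x (j k, n) = i
    · refine Or.inl ⟨fun m => ?_, h8⟩
      obtain ⟨n, hn⟩ := mem_iUnion.1 (h7 m)
      exact ⟨m + n, by omega, hn⟩
    · push Not at h8
      obtain ⟨n, hn, hne⟩ := h8
      exact Or.inr (Or.inr (mem_iUnion.2 ⟨n, ⟨hx, hn⟩, hne⟩))
  · push Not at h7
    obtain ⟨m, hm⟩ := h7
    exact Or.inr (Or.inl (mem_iUnion.2 ⟨m, hx, hm⟩))

end

/-! ### The dominating number of the extension -/

section Dominating

variable (P : Type u) [Preorder P]

/-- `x ≤* y` for the named functions `x` and `y`: there is `m` such that `x n ≤ y n` for all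
`n ≥ m`. -/
def LeStarName {P : Type u} [Preorder P] (x y : ℕ → ℕ → Set P) : Set P :=
  fex fun m : ℕ => fall fun n : ℕ => fall fun a : ℕ => fall fun b : ℕ =>
    fimp (fand (fground (m ≤ n)) (fand (meets (x n a)) (meets (y n b)))) (fground (a ≤ b))

/-- In the extension there is a dominating family indexed by `Y`. -/
def DomLe (Y : Type v) : Set P :=
  fex fun E : Y → ℕ → ℕ → Set P =>
    fand (fall fun y => IsFun (E y))
      (fall fun x : ℕ → ℕ → Set P => fimp (IsFun x) (fex fun y => LeStarName x (E y)))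

/-- In the extension the dominating number is `κ`: there is a dominating family of size `κ` and
none of smaller size. -/
def DominatingNumberIs (κ : Cardinal.{v}) : Set P :=
  fand (DomLe P κ.out) (fall fun μ : Cardinal.{v} => fall fun _ : μ < κ => fnot (DomLe P μ.out))

end Dominating

section

variable {P : Type u} [Preorder P]

/-- the canonical name of a function of the ground model -/
def check (f : ℕ → ℕ) : ℕ → ℕ → Set P := fun n a => {_p | f n = a}

theorem mem_meets_check {f : ℕ → ℕ} {n a : ℕ} {p : P} : p ∈ meets (check f n a) ↔ f n = a := by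
  constructor
  · intro h
    obtain ⟨_, _, s, hs, _⟩ := h p le_rfl
    exact hs
  · intro h
    exact meets_of_mem h

theorem isFun_check (f : ℕ → ℕ) (p : P) : p ∈ IsFun (check f) := by
  refine ⟨fun n => mem_fex_of_mem (f n) (down_meets _) (mem_meets_check.2 rfl), ?_⟩
  intro n a b
  refine mem_fimp.2 fun q _ hq => ⟨q, le_rfl, ?_⟩
  exact (mem_meets_check.1 hq.1).symm.trans (mem_meets_check.1 hq.2)

theorem down_LeStarName (x y : ℕ → ℕ → Set P) : Down (LeStarName x y) := down_fex _

end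

section

variable {Λ : Type u}

/-- Random forcing is `ω^ω`-bounding, uniformly in the condition. -/
theorem bounded {p : RandomForcing Λ} {x : ℕ → ℕ → Set (RandomForcing Λ)} (hx : p ∈ IsFun x) :
    ∃ f : ℕ → ℕ, p ∈ LeStarName x (check f) := by
  classical
  choose b hbm hb using fun (n a : ℕ) => exists_value (x n a)
  have hcov : ∀ n, vol Λ (p.carrier \ ⋃ a, b n a) = 0 := by
    intro n
    by_contra hne
    have hm : MeasurableSet (⋃ a, b n a) := MeasurableSet.iUnion fun a => hbm _ _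
    obtain ⟨q, hq, a, ha⟩ := mem_fex.1 (hx.1 n) ⟨_, p.meas.diff hm, hne⟩
      (le_of_subset sdiff_subset)
    apply q.pos
    refine measure_mono_null ?_ (measure_union_null (le_def.1 hq) ((hb n a q).1 ha))
    intro y hy
    by_cases hyb : y ∈ b n a
    · exact Or.inl ⟨hy, fun h => h.2 (mem_iUnion.2 ⟨a, hyb⟩)⟩
    · exact Or.inr ⟨hy, hyb⟩
  have hf : ∀ n, ∃ N, vol Λ (p.carrier \ ⋃ a ∈ Finset.range (N + 1), b n a) < 2⁻¹ ^ n := by
    intro n
    have h1 : Filter.Tendsto (fun N => vol Λ (p.carrier \ ⋃ a ∈ Finset.range (N + 1), b n a))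
        Filter.atTop (nhds (vol Λ (⋂ N : ℕ, p.carrier \ ⋃ a ∈ Finset.range (N + 1), b n a))) := by
      refine tendsto_measure_iInter_atTop (fun N => ?_) ?_ ⟨0, measure_ne_top _ _⟩
      · exact (p.meas.diff (Finset.measurableSet_biUnion _ fun a _ => hbm n a)).nullMeasurableSet
      · intro N N' hN y hy
        refine ⟨hy.1, fun h => hy.2 ?_⟩
        simp only [mem_iUnion, Finset.mem_range] at h ⊢
        obtain ⟨a, ha, hya⟩ := h
        exact ⟨a, by omega, hya⟩
    have h2 : vol Λ (⋂ N : ℕ, p.carrier \ ⋃ a ∈ Finset.range (N + 1), b n a) = 0 := by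
      refine measure_mono_null ?_ (hcov n)
      intro y hy
      rw [mem_iInter] at hy
      refine ⟨(hy 0).1, fun h => ?_⟩
      obtain ⟨a, ha⟩ := mem_iUnion.1 h
      refine (hy a).2 ?_
      simp only [mem_iUnion, Finset.mem_range]
      exact ⟨a, by omega, ha⟩
    rw [h2] at h1
    have h3 : (0 : ℝ≥0∞) < 2⁻¹ ^ n := ENNReal.pow_pos (by simp) n
    exact ((tendsto_order.1 h1).2 _ h3).exists
  choose f hf using hf
  refine ⟨f, mem_fex.2 fun q hq => ?_⟩
  -- a tail of the exceptional sets has small measure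
  let U : ℕ → Set (Λ × ℕ → Bool) := fun n => p.carrier \ ⋃ a ∈ Finset.range (f n + 1), b n a
  have hUm : ∀ n, MeasurableSet (U n) := fun n =>
    p.meas.diff (Finset.measurableSet_biUnion _ fun a _ => hbm n a)
  have hsum : ∑' n, vol Λ (U n) ≠ ∞ := by
    refine ne_top_of_le_ne_top ?_ (ENNReal.tsum_le_tsum fun n => (hf n).le)
    rw [ENNReal.tsum_geometric]
    simp
  have htail : Filter.Tendsto (fun m => ∑' n, vol Λ (U (n + m))) Filter.atTop (nhds 0) :=
    ENNReal.tendsto_sum_nat_add _ hsum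
  obtain ⟨m, hm⟩ := ((tendsto_order.1 htail).2 _ (pos_iff_ne_zero.2 q.pos)).exists
  have hlt : vol Λ (⋃ n, U (n + m)) < vol Λ q.carrier := (measure_iUnion_le _).trans_lt hm
  have hSm : MeasurableSet (⋃ n, U (n + m))ᶜ := (MeasurableSet.iUnion fun n => hUm _).compl
  have hpos : vol Λ (q.carrier ∩ (⋃ n, U (n + m))ᶜ) ≠ 0 := by
    intro h0
    have h1 : vol Λ q.carrier ≤ vol Λ (q.carrier ∩ (⋃ n, U (n + m))ᶜ) + vol Λ (⋃ n, U (n + m)) := by
      refine (measure_mono ?_).trans (measure_union_le _ _)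
      intro y hy
      by_cases h : y ∈ ⋃ n, U (n + m)
      · exact Or.inr h
      · exact Or.inl ⟨hy, h⟩
    rw [h0, zero_add] at h1
    exact absurd h1 (not_le.2 hlt)
  refine ⟨inter q _ hSm hpos, inter_le _ _ _ _, m, ?_⟩
  intro n a a'
  refine mem_fimp.2 fun r hr ⟨hmn, hra, hra'⟩ => ?_
  have hmn' : m ≤ n := hmn
  rw [mem_meets_check] at hra'
  subst hra'
  by_contra hcon
  push Not at hcon
  -- all of `r` lies in `b n a`, in `p`, and outside `U n`
  have h1 : vol Λ (r.carrier \ b n a) = 0 := (hb n a r).1 hra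
  have h2 : vol Λ (r.carrier \ (q.carrier ∩ (⋃ n, U (n + m))ᶜ)) = 0 := hr
  have h3 : vol Λ (r.carrier \ p.carrier) = 0 := (hr.trans (inter_le _ _ _ _)).trans hq
  have h4 : ∃ a' ∈ Finset.range (f n + 1), vol Λ (r.carrier ∩ b n a') ≠ 0 := by
    by_contra hno
    push Not at hno
    apply r.pos
    have h5 : vol Λ (⋃ a' ∈ Finset.range (f n + 1), r.carrier ∩ b n a') = 0 :=
      (measure_biUnion_null_iff (Finset.countable_toSet _)).2 fun a' ha' => hno a' ha'
    refine measure_mono_null ?_ (measure_union_null h5 (measure_union_null h2 h3))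
    intro y hy
    by_cases hyp : y ∈ p.carrier
    · by_cases hyU : y ∈ ⋃ n, U (n + m)
      · exact Or.inr (Or.inl ⟨hy, fun h => h.2 hyU⟩)
      · left
        have h6 : y ∉ U n := fun h => hyU (mem_iUnion.2 ⟨n - m, by rwa [Nat.sub_add_cancel hmn']⟩)
        have h7 : y ∈ ⋃ a ∈ Finset.range (f n + 1), b n a := by
          by_contra h8
          exact h6 ⟨hyp, h8⟩
        simp only [mem_iUnion] at h7 ⊢
        obtain ⟨a', ha', hya⟩ := h7
        exact ⟨a', ha', hy, hya⟩
    · exact Or.inr (Or.inr ⟨hy, hyp⟩)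
  obtain ⟨a', ha', hpos'⟩ := h4
  have h9 : inter r (b n a') (hbm n a') hpos' ≤ r := inter_le _ _ _ _
  have h10 : inter r (b n a') (hbm n a') hpos' ∈ meets (x n a') := by
    refine (hb n a' _).2 ?_
    show vol Λ ((r.carrier ∩ b n a') \ b n a') = 0
    rw [sdiff_eq_empty.2 inter_subset_right, measure_empty]
  have h11 : a = a' := by
    refine IsFun.unique (down_IsFun x p hx _ ?_) (down_meets _ _ hra _ h9) h10
    exact h9.trans ((hr.trans (inter_le _ _ _ _)).trans hq)
  subst h11
  have := Finset.mem_range.1 ha'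
  exact hcon r le_rfl (show a ≤ f n by omega)

open Pool.Agent.Helper669.Dom in
/-- Random forcing does not change the dominating number. -/
theorem dominatingNumberIs (p : RandomForcing Λ) :
    p ∈ DominatingNumberIs (RandomForcing Λ) dNum := by
  refine ⟨?_, fun μ hμ q _ hq => ?_⟩
  · obtain ⟨F, hF, hcard⟩ := exists_dominating
    obtain ⟨e⟩ : Nonempty (dNum.out ≃ F) := by
      rw [← Cardinal.eq, mk_out, hcard]
    refine mem_fex_of_mem (fun y => check (e y).1)
      (down_fand (down_fall fun _ => down_IsFun _) (down_fall fun _ => down_fimp _ _)) ?_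
    refine ⟨fun y => isFun_check _ p, fun x => mem_fimp.2 fun q hq hx => ?_⟩
    obtain ⟨f, hf⟩ := bounded hx
    obtain ⟨g, hg, hfg⟩ := hF f
    refine ⟨q, le_rfl, mem_fex_of_mem (e.symm ⟨g, hg⟩) (down_LeStarName _ _) ?_⟩
    have hee : e (e.symm ⟨g, hg⟩) = ⟨g, hg⟩ := e.apply_symm_apply _
    show q ∈ LeStarName x (check (e (e.symm ⟨g, hg⟩)).1)
    rw [hee]
    obtain ⟨m', hm'⟩ := Filter.eventually_atTop.1 hfg
    refine mem_fex.2 fun r hr => ?_
    obtain ⟨s, hs, m, hm⟩ := mem_fex.1 hf r hr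
    refine ⟨s, hs, max m m', fun n a b => mem_fimp.2 fun t ht ⟨h1, h2, h3⟩ => ?_⟩
    have h1' : max m m' ≤ n := h1
    rw [mem_meets_check] at h3
    have h3' : g n = b := h3
    obtain ⟨u, hu, hu'⟩ := mem_fimp.1 (hm n a (f n)) t ht
      ⟨(le_max_left _ _).trans h1', h2, mem_meets_check.2 rfl⟩
    have h4 : a ≤ f n := hu'
    have h5 := hm' n ((le_max_right _ _).trans h1')
    exact ⟨t, le_rfl, show a ≤ b by omega⟩
  · obtain ⟨q1, hq1, E, hE1, hE2⟩ := mem_fex.1 hq q le_rfl
    choose f hf using fun y => bounded (hE1 y)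
    obtain ⟨g, hg⟩ := not_dominating (ι := μ.out) (by rwa [mk_out]) f
    obtain ⟨q2, hq2, h2⟩ := mem_fimp.1 (hE2 (check g)) q1 le_rfl (isFun_check g q1)
    obtain ⟨q3, hq3, y, h3⟩ := mem_fex.1 h2 q2 le_rfl
    obtain ⟨q4, hq4, m, h4⟩ := mem_fex.1 h3 q3 le_rfl
    obtain ⟨q5, hq5, m', h5⟩ := mem_fex.1 (hf y) q4 (hq4.trans (hq3.trans hq2))
    obtain ⟨n, hn, hlt⟩ := (Filter.frequently_atTop.1 (hg y)) (max m m')
    have hle : q5 ≤ q1 := hq5.trans (hq4.trans (hq3.trans hq2))
    obtain ⟨q6, hq6, a, ha⟩ := IsFun.total (down_IsFun _ _ (hE1 y) _ hle) n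
    obtain ⟨q7, hq7, h7⟩ := mem_fimp.1 (h4 n (g n) a) q6 (hq6.trans hq5)
      ⟨(le_max_left _ _).trans hn, mem_meets_check.2 rfl, ha⟩
    obtain ⟨q8, hq8, h8⟩ := mem_fimp.1 (h5 n a (f y n)) q7 (hq7.trans hq6)
      ⟨(le_max_right _ _).trans hn, down_meets _ _ ha _ hq7, mem_meets_check.2 rfl⟩
    have h7' : g n ≤ a := h7
    have h8' : a ≤ f y n := h8
    omega

end

end Pool.Agent.W905.Rand
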