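import Mathlib

/-!
# Half-Cohen reals and two-step iterations: definitions

Names of reals, names of forcing notions and two-step iterations, in terms of the forcing relation
over the ground model.
-/

namespace Pool.Agent.W905.HalfCohen

/-- A (nice) name for an element of `ω^ω` in the forcing language of the forcing notion `R`:
`val n k r` is read as: `r` forces `x(n) = k`. -/
structure RealName (R : Type) [Preorder R] where
  val : ℕ → ℕ → R → Prop
  mono : ∀ {n k : ℕ} {r r' : R}, r' ≤ r → val n k r → val n k r'
  total : ∀ (n : ℕ) (r : R), ∃ r' ≤ r, ∃ k, val n k r'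
  single : ∀ {n k l : ℕ} {r : R}, val n k r → val n l r → k = l

/-- `r` forces that the set of `n` with `x(n) = f(n)` is infinite (`f` in the ground model). -/
def ForcesInfEq {R : Type} [Preorder R] (r : R) (x : RealName R) (f : ℕ → ℕ) : Prop :=
  ∀ N : ℕ, ∀ r' ≤ r, ∃ r'' ≤ r', ∃ n, N ≤ n ∧ x.val n (f n) r''

/-- `R` adds a half-Cohen real: some condition forces that some `x` in `ω^ω` agrees infinitely
often with each ground model real. -/
def AddsHalfCohen (R : Type) [Preorder R] : Prop :=
  ∃ (x : RealName R) (r : R), ∀ f : ℕ → ℕ, ForcesInfEq r x f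

/-- A `P`-name for a forcing notion.  The underlying set is (named by) the ground model set `Q`,
and `le p a b` is read as: `p` forces `a ≤ b`. -/
structure PosetName (P : Type) [Preorder P] where
  Q : Type
  le : P → Q → Q → Prop
  mono : ∀ {p p' : P} {a b : Q}, p' ≤ p → le p a b → le p' a b
  refl : ∀ (p : P) (a : Q), le p a a
  trans : ∀ {p : P} {a b c : Q}, le p a b → le p b c → le p a c
  dense : ∀ {p : P} {a b : Q}, (∀ p' ≤ p, ∃ p'' ≤ p', le p'' a b) → le p a b

/-- The two-step iteration `P * Q`: pairs `(p, q)`. -/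
structure PosetName.Iter {P : Type} [Preorder P] (Q : PosetName P) where
  fst : P
  snd : Q.Q

/-- The order of the two-step iteration: `(p', q') ≤ (p, q)` iff `p' ≤ p` and `p'` forces
`q' ≤ q`. -/
instance {P : Type} [Preorder P] (Q : PosetName P) : Preorder Q.Iter where
  le r' r := r'.fst ≤ r.fst ∧ Q.le r'.fst r'.snd r.snd
  le_refl r := ⟨le_refl _, Q.refl _ _⟩
  le_trans a b c hab hbc := ⟨hab.1.trans hbc.1, Q.trans hab.2 (Q.mono hab.1 hbc.2)⟩

/-- `r` in `P * Q` forces that the set of `n` with `x(n) = y(n)` is infinite, where `x` is a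
`P * Q`-name and `y` is a `P`-name. -/
def PosetName.ForcesInfEq {P : Type} [Preorder P] {Q : PosetName P} (r : Q.Iter)
    (x : RealName Q.Iter) (y : RealName P) : Prop :=
  ∀ N : ℕ, ∀ r' ≤ r, ∃ r'' ≤ r', ∃ n k, N ≤ n ∧ x.val n k r'' ∧ y.val n k r''.fst

/-- Some condition of `P * Q` forces that there is a real which agrees infinitely often with each
real of `V[G]`, `G` being the `P`-generic filter; that is, `P` does not force that `Q` adds no
half-Cohen real over `V[G]`. -/
def PosetName.AddsHalfCohen {P : Type} [Preorder P] (Q : PosetName P) : Prop :=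
  ∃ (x : RealName Q.Iter) (r : Q.Iter), ∀ y : RealName P, PosetName.ForcesInfEq r x y

end Pool.Agent.W905.HalfCohen
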