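import Mathlib
import Pool.Agent.W905.HalfCohenDefs

/-!
# Two-step iterations and half-Cohen reals

Laver forcing followed by the forcing with co-infinite partial functions bounded by the Laver
real: neither step adds a half-Cohen real, the iteration does.
-/

namespace Pool.Agent.W905.HalfCohen

/-! ### Laver trees -/

/-- A node: a finite sequence of natural numbers, the last entry being the head of the list, so
that `u <:+ w` says that `u` is an initial segment of `w`. -/
abbrev Node := List ℕ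

/-- `T` is a Laver tree with stem `s`. -/
structure IsLaver (T : Set Node) (s : Node) : Prop where
  mem : s ∈ T
  closed : ∀ (a : ℕ) (u : Node), a :: u ∈ T → u ∈ T
  comp : ∀ u ∈ T, u <:+ s ∨ s <:+ u
  split : ∀ u ∈ T, s <:+ u → {a : ℕ | a :: u ∈ T}.Infinite

/-- Laver forcing. -/
structure Laver where
  T : Set Node
  h : ∃ s, IsLaver T s

instance : PartialOrder Laver where
  le p q := p.T ⊆ q.T
  le_refl p := subset_refl p.T
  le_trans a b c hab hbc := fun u hu => hbc (hab hu)
  le_antisymm a b hab hba := by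
    cases a; cases b
    have := Set.Subset.antisymm hab hba
    simp only at this
    subst this
    rfl

theorem IsLaver.suffix {T : Set Node} {s : Node} (h : IsLaver T s) :
    ∀ (u w : Node), u ∈ T → w <:+ u → w ∈ T := by
  intro u
  induction u with
  | nil =>
    intro w hu hw
    rw [List.suffix_nil] at hw
    rw [hw]; exact hu
  | cons a u ih =>
    intro w hu hw
    rcases List.suffix_cons_iff.1 hw with h1 | h1
    · rw [h1]; exact hu
    · exact ih w (h.closed a u hu) h1

/-- The subtree of nodes comparable with `u`. -/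
def restrict (T : Set Node) (u : Node) : Set Node := {w | w ∈ T ∧ (w <:+ u ∨ u <:+ w)}

theorem restrict_subset (T : Set Node) (u : Node) : restrict T u ⊆ T := fun _ h => h.1

theorem IsLaver.restrict {T : Set Node} {s u : Node} (h : IsLaver T s) (hu : u ∈ T)
    (hs : s <:+ u) : IsLaver (restrict T u) u := by
  refine ⟨⟨hu, Or.inl (List.suffix_refl u)⟩, ?_, fun w hw => hw.2, ?_⟩
  · rintro a w ⟨h1, h2⟩
    refine ⟨h.closed a w h1, ?_⟩
    rcases h2 with h2 | h2
    · exact Or.inl ((List.suffix_cons a w).trans h2)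
    · rcases List.suffix_cons_iff.1 h2 with h3 | h3
      · left; rw [h3]; exact List.suffix_cons a w
      · exact Or.inr h3
  · rintro w ⟨h1, _⟩ h2
    refine (h.split w h1 (hs.trans h2)).mono ?_
    intro a ha
    exact ⟨ha, Or.inr (h2.trans (List.suffix_cons a w))⟩

theorem suffix_eq_of_length {u w : Node} (h : u <:+ w) (hl : w.length ≤ u.length) : u = w :=
  h.eq_of_length_le hl

/-- The stem of a smaller tree extends the stem of the bigger one. -/
theorem IsLaver.stem_le {T R : Set Node} {s t : Node} (h : IsLaver T s) (hR : IsLaver R t)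
    (hsub : R ⊆ T) : s <:+ t := by
  rcases h.comp t (hsub hR.mem) with h1 | h1
  · by_contra hne
    have hlt : t.length < s.length := by
      by_contra hge
      rw [not_lt] at hge
      have := suffix_eq_of_length h1 hge
      exact hne (this ▸ List.suffix_refl _)
    have hinf := hR.split t hR.mem (List.suffix_refl t)
    have hsub1 : {a : ℕ | a :: t ∈ R}.Subsingleton := by
      intro a ha b hb
      have ha1 : (a :: t) <:+ s := by
        rcases h.comp _ (hsub ha) with h2 | h2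
        · exact h2
        · have := suffix_eq_of_length h2 (by simpa using hlt)
          rw [this]
      have hb1 : (b :: t) <:+ s := by
        rcases h.comp _ (hsub hb) with h2 | h2
        · exact h2
        · have := suffix_eq_of_length h2 (by simpa using hlt)
          rw [this]
      rcases List.suffix_or_suffix_of_suffix ha1 hb1 with h3 | h3
      · have := suffix_eq_of_length h3 (by simp)
        simpa using this
      · have := suffix_eq_of_length h3 (by simp)
        simpa using this.symm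
    exact hinf hsub1.finite
  · exact h1

/-- Nodes of arbitrary length above the stem. -/
theorem IsLaver.exists_long {T : Set Node} {s : Node} (h : IsLaver T s) (N : ℕ) :
    ∃ u ∈ T, s <:+ u ∧ N ≤ u.length := by
  induction N with
  | zero => exact ⟨s, h.mem, List.suffix_refl s, Nat.zero_le _⟩
  | succ N ih =>
    obtain ⟨u, hu, hs, hN⟩ := ih
    obtain ⟨a, ha⟩ := (h.split u hu hs).nonempty
    exact ⟨a :: u, ha, hs.trans (List.suffix_cons a u), by simpa using hN⟩

/-- Glueing of trees. -/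
def glue (B : Set ℕ) (F : ℕ → Set Node) : Set Node := {w | ∃ a ∈ B, w ∈ F a}

theorem glue_isLaver {s : Node} {B : Set ℕ} {F : ℕ → Set Node} (hB : B.Infinite)
    (hF : ∀ a ∈ B, IsLaver (F a) (a :: s)) : IsLaver (glue B F) s := by
  obtain ⟨a0, ha0⟩ := hB.nonempty
  refine ⟨⟨a0, ha0, (hF a0 ha0).closed _ _ (hF a0 ha0).mem⟩, ?_, ?_, ?_⟩
  · rintro b u ⟨a, ha, hu⟩
    exact ⟨a, ha, (hF a ha).closed _ _ hu⟩
  · rintro u ⟨a, ha, hu⟩
    rcases (hF a ha).comp u hu with h1 | h1
    · rcases List.suffix_cons_iff.1 h1 with h2 | h2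
      · right; rw [h2]; exact List.suffix_cons a s
      · exact Or.inl h2
    · exact Or.inr ((List.suffix_cons a s).trans h1)
  · rintro u ⟨a, ha, hu⟩ hs
    by_cases hus : u = s
    · subst hus
      refine hB.mono ?_
      intro b hb
      exact ⟨b, hb, (hF b hb).mem⟩
    · have h1 : (a :: s) <:+ u := by
        rcases (hF a ha).comp u hu with h1 | h1
        · rcases List.suffix_cons_iff.1 h1 with h2 | h2
          · rw [h2]
          · exact absurd (suffix_eq_of_length h2 hs.length_le) hus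
        · exact h1
      refine ((hF a ha).split u hu h1).mono ?_
      intro b hb
      exact ⟨a, ha, hb⟩

/-- A tree below a glued tree can be shrunk into one of the pieces. -/
theorem glue_shrink {s : Node} {B : Set ℕ} {F : ℕ → Set Node}
    (hF : ∀ a ∈ B, IsLaver (F a) (a :: s)) {R : Set Node} {t : Node} (hR : IsLaver R t)
    (hsub : R ⊆ glue B F) : ∃ a ∈ B, ∃ R' t', IsLaver R' t' ∧ R' ⊆ R ∧ R' ⊆ F a := by
  obtain ⟨u, hu, htu, hlen⟩ := hR.exists_long (s.length + 1)
  obtain ⟨a, ha, hua⟩ := hsub hu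
  have key : ∀ b ∈ B, ∀ w ∈ F b, s.length + 1 ≤ w.length → (b :: s) <:+ w := by
    intro b hb w hw hl
    rcases (hF b hb).comp w hw with h1 | h1
    · have := suffix_eq_of_length h1 (by simpa using hl)
      rw [this]
    · exact h1
  have hau := key a ha u hua hlen
  refine ⟨a, ha, restrict R u, u, hR.restrict hu htu, restrict_subset R u, ?_⟩
  rintro w ⟨hw, hc⟩
  rcases hc with hc | hc
  · exact (hF a ha).suffix u w hua hc
  · obtain ⟨b, hb, hwb⟩ := hsub hw
    have hbw := key b hb w hwb (hlen.trans hc.length_le)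
    have haw := hau.trans hc
    have hab : a = b := by
      rcases List.suffix_or_suffix_of_suffix haw hbw with h3 | h3
      · have := suffix_eq_of_length h3 (by simp)
        simpa using this
      · have := suffix_eq_of_length h3 (by simp)
        simpa using this.symm
    rw [hab]; exact hwb

/-- The basic rank argument: if `Good u` fails at the stem, and `Good u` holds as soon as it holds
for infinitely many children of `u`, then there is a tree with the same stem on which `Good`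
fails everywhere above the stem. -/
theorem bad_tree {T : Set Node} {s : Node} (h : IsLaver T s) (Good : Node → Prop)
    (hbad : ¬ Good s)
    (hglue : ∀ u ∈ T, s <:+ u → {a : ℕ | a :: u ∈ T ∧ Good (a :: u)}.Infinite → Good u) :
    ∃ R, IsLaver R s ∧ R ⊆ T ∧ ∀ u ∈ R, s <:+ u → ¬ Good u := by
  refine ⟨{u | u ∈ T ∧ ∀ w, s <:+ w → w <:+ u → ¬ Good w}, ⟨⟨h.mem, ?_⟩, ?_, ?_, ?_⟩, ?_, ?_⟩
  · intro w h1 h2
    have := suffix_eq_of_length h1 h2.length_le
    rw [← this]; exact hbad
  · rintro a u ⟨h1, h2⟩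
    exact ⟨h.closed a u h1, fun w hw hwu => h2 w hw (hwu.trans (List.suffix_cons a u))⟩
  · rintro u ⟨h1, _⟩
    exact h.comp u h1
  · rintro u ⟨h1, h2⟩ hs
    have hfin : ¬ {a : ℕ | a :: u ∈ T ∧ Good (a :: u)}.Infinite := fun hi =>
      h2 u hs (List.suffix_refl u) (hglue u h1 hs hi)
    rw [Set.not_infinite] at hfin
    refine ((h.split u h1 hs).sdiff hfin).mono ?_
    rintro a ⟨ha, hna⟩
    refine ⟨ha, fun w hw hwu => ?_⟩
    rcases List.suffix_cons_iff.1 hwu with h3 | h3
    · rw [h3]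
      intro hg
      exact hna ⟨ha, hg⟩
    · exact h2 w hw h3
  · exact fun u hu => hu.1
  · intro u hu hs
    exact hu.2 u hs (List.suffix_refl u)

/-- Pure decision for finitely many alternatives. -/
theorem pure_decision {m : ℕ} (D : ℕ → Set Node → Prop)
    (hmono : ∀ i R R' t t', IsLaver R t → IsLaver R' t' → R' ⊆ R → D i R → D i R')
    (hdense : ∀ R t, IsLaver R t → ∃ R' t', IsLaver R' t' ∧ R' ⊆ R ∧ ∃ i < m, D i R')
    {T : Set Node} {s : Node} (h : IsLaver T s) :
    ∃ T', IsLaver T' s ∧ T' ⊆ T ∧ ∃ i < m, ∀ R t, IsLaver R t → R ⊆ T' →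
      ∃ R' t', IsLaver R' t' ∧ R' ⊆ R ∧ D i R' := by
  classical
  let Good : Node → Prop := fun u => ∃ T', IsLaver T' u ∧ T' ⊆ restrict T u ∧ ∃ i < m,
    ∀ R t, IsLaver R t → R ⊆ T' → ∃ R' t', IsLaver R' t' ∧ R' ⊆ R ∧ D i R'
  by_cases hg : Good s
  · obtain ⟨T', h1, h2, h3⟩ := hg
    exact ⟨T', h1, h2.trans (restrict_subset T s), h3⟩
  · exfalso
    obtain ⟨R, hR, hRT, hbad⟩ := bad_tree h Good hg (by
      intro u hu hs hinf
      set B := {a : ℕ | a :: u ∈ T ∧ Good (a :: u)} with hBdef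
      have hch : ∀ a : ℕ, ∃ F : Set Node, ∃ i : ℕ, a ∈ B → (IsLaver F (a :: u) ∧
          F ⊆ restrict T (a :: u) ∧ i < m ∧
          ∀ R t, IsLaver R t → R ⊆ F → ∃ R' t', IsLaver R' t' ∧ R' ⊆ R ∧ D i R') := by
        intro a
        by_cases ha : a ∈ B
        · obtain ⟨_, F, h1, h2, i, h3, h4⟩ := ha
          exact ⟨F, i, fun _ => ⟨h1, h2, h3, h4⟩⟩
        · exact ⟨∅, 0, fun h => absurd h ha⟩
      choose F i hFi using hch
      -- pigeonhole
      have hpig : ∃ j < m, {a : ℕ | a ∈ B ∧ i a = j}.Infinite := by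
        by_contra hno
        push Not at hno
        apply hinf
        have : B ⊆ ⋃ j ∈ Finset.range m, {a : ℕ | a ∈ B ∧ i a = j} := by
          intro a ha
          simp only [Set.mem_iUnion, Finset.mem_range]
          exact ⟨i a, (hFi a ha).2.2.1, ha, rfl⟩
        refine Set.Finite.subset ?_ this
        refine Set.Finite.biUnion (Finset.finite_toSet _) ?_
        intro j hj
        exact hno j (Finset.mem_range.1 (Finset.mem_coe.1 hj))
      obtain ⟨j, hj, hinfj⟩ := hpig
      refine ⟨glue {a : ℕ | a ∈ B ∧ i a = j} F, glue_isLaver hinfj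
        (fun a ha => (hFi a ha.1).1), ?_, j, hj, ?_⟩
      · rintro w ⟨a, ha, hw⟩
        have h1 := (hFi a ha.1).2.1 hw
        refine ⟨h1.1, ?_⟩
        rcases h1.2 with h2 | h2
        · rcases List.suffix_cons_iff.1 h2 with h3 | h3
          · right; rw [h3]; exact List.suffix_cons a u
          · exact Or.inl h3
        · exact Or.inr ((List.suffix_cons a u).trans h2)
      · intro R t hR hsub
        obtain ⟨a, ha, R1, t1, hR1, hR1R, hR1F⟩ := glue_shrink
          (fun a ha => (hFi a (show a ∈ {a : ℕ | a ∈ B ∧ i a = j} from ha).1).1) hR hsub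
        obtain ⟨R2, t2, h2, h2R, h2D⟩ := (hFi a ha.1).2.2.2 R1 t1 hR1 hR1F
        have : i a = j := ha.2
        rw [this] at h2D
        exact ⟨R2, t2, h2, h2R.trans hR1R, h2D⟩)
    obtain ⟨R', t', hR', hR'R, i, hi, hD⟩ := hdense R s hR
    have hst : s <:+ t' := hR.stem_le hR' hR'R
    refine hbad t' (hR'R hR'.mem) hst ⟨R', hR', ?_, i, hi, ?_⟩
    · intro w hw
      exact ⟨hRT (hR'R hw), (hR'.comp w hw)⟩
    · intro R2 t2 h2 h2R
      exact ⟨R2, t2, h2, subset_refl _, hmono i R' R2 t' t2 hR' h2 h2R hD⟩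

/-! ### Fusion -/

/-- A sequence of infinite sets has a strictly increasing transversal. -/
theorem exists_strictMono_mem (A : ℕ → Set ℕ) (hA : ∀ i, (A i).Infinite) :
    ∃ a : ℕ → ℕ, StrictMono a ∧ ∀ i, a i ∈ A i := by
  classical
  have hex : ∀ i m, ∃ k, m < k ∧ k ∈ A i := by
    intro i m
    obtain ⟨k, hk, hmk⟩ := (hA i).exists_gt m
    exact ⟨k, hmk, hk⟩
  choose g hg1 hg2 using hex
  let a : ℕ → ℕ := fun n => Nat.rec (g 0 0) (fun n x => g (n + 1) x) n
  refine ⟨a, strictMono_nat_of_lt_succ (fun n => hg1 (n + 1) (a n)), ?_⟩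
  intro i
  cases i with
  | zero => exact hg2 0 0
  | succ n => exact hg2 (n + 1) (a n)

/-- Data for a fusion construction. -/
structure Fusion (St : Type) where
  T : St → Set Node
  s : St → Node
  a : St → ℕ → ℕ
  nxt : St → ℕ → St
  laver : ∀ c, IsLaver (T c) (s c)
  mono : ∀ c, StrictMono (a c)
  stem : ∀ c i, s (nxt c i) = a c i :: s c
  sub : ∀ c i, T (nxt c i) ⊆ T c

namespace Fusion

variable {St : Type} (F : Fusion St) (c₀ : St)

/-- The state after following the index sequence `σ`. -/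
def st : List ℕ → St
  | [] => c₀
  | i :: σ => F.nxt (st σ) i

/-- The fusion tree. -/
def tree : Set Node := {w | w <:+ F.s c₀ ∨ ∃ σ, w = F.s (F.st c₀ σ)}

theorem sub_of_suffix {σ τ : List ℕ} (h : σ <:+ τ) : F.T (F.st c₀ τ) ⊆ F.T (F.st c₀ σ) := by
  induction τ with
  | nil =>
    rw [List.suffix_nil] at h
    rw [h]
  | cons i τ ih =>
    rcases List.suffix_cons_iff.1 h with h1 | h1
    · rw [h1]
    · exact (F.sub _ i).trans (ih h1)

theorem stem_suffix {σ τ : List ℕ} (h : σ <:+ τ) : F.s (F.st c₀ σ) <:+ F.s (F.st c₀ τ) := by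
  induction τ with
  | nil =>
    rw [List.suffix_nil] at h
    rw [h]
  | cons i τ ih =>
    rcases List.suffix_cons_iff.1 h with h1 | h1
    · rw [h1]
    · refine (ih h1).trans ?_
      show _ <:+ F.s (F.nxt (F.st c₀ τ) i)
      rw [F.stem]
      exact List.suffix_cons _ _

theorem length_stem (σ : List ℕ) : (F.s (F.st c₀ σ)).length = σ.length + (F.s c₀).length := by
  induction σ with
  | nil => simp [st]
  | cons i σ ih =>
    show (F.s (F.nxt (F.st c₀ σ) i)).length = _
    rw [F.stem, List.length_cons, ih, List.length_cons]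
    omega

theorem stem_inj {σ τ : List ℕ} (h : F.s (F.st c₀ σ) = F.s (F.st c₀ τ)) : σ = τ := by
  induction σ generalizing τ with
  | nil =>
    have := congrArg List.length h
    rw [length_stem, length_stem] at this
    have h2 : τ.length = 0 := by simp at this; simpa using this
    exact (List.length_eq_zero_iff.1 h2).symm
  | cons i σ ih =>
    cases τ with
    | nil =>
      have := congrArg List.length h
      rw [length_stem, length_stem] at this
      simp at this
    | cons j τ =>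
      have h' : F.s (F.nxt (F.st c₀ σ) i) = F.s (F.nxt (F.st c₀ τ) j) := h
      rw [F.stem, F.stem, List.cons.injEq] at h'
      have h2 := ih h'.2
      subst h2
      rw [(F.mono _).injective h'.1]

theorem suffix_of_stem {σ τ : List ℕ} (h : F.s (F.st c₀ σ) <:+ F.s (F.st c₀ τ)) : σ <:+ τ := by
  induction τ with
  | nil =>
    have h1 := h.length_le
    rw [length_stem, length_stem] at h1
    have h2 : σ.length = 0 := by simp at h1; simpa using h1
    rw [List.length_eq_zero_iff.1 h2]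
  | cons i τ ih =>
    have h' : F.s (F.st c₀ σ) <:+ F.s (F.nxt (F.st c₀ τ) i) := h
    rw [F.stem] at h'
    rcases List.suffix_cons_iff.1 h' with h1 | h1
    · have : F.s (F.st c₀ σ) = F.s (F.st c₀ (i :: τ)) := by
        rw [h1]
        show _ = F.s (F.nxt (F.st c₀ τ) i)
        rw [F.stem]
      rw [F.stem_inj c₀ this]
    · exact (ih h1).trans (List.suffix_cons _ _)

theorem tree_sub : F.tree c₀ ⊆ F.T c₀ := by
  rintro w (h | ⟨σ, rfl⟩)
  · exact (F.laver c₀).suffix _ _ (F.laver c₀).mem h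
  · exact F.sub_of_suffix c₀ (List.nil_suffix) (F.laver _).mem

theorem tree_isLaver : IsLaver (F.tree c₀) (F.s c₀) := by
  refine ⟨Or.inl (List.suffix_refl _), ?_, ?_, ?_⟩
  · rintro a u (h | ⟨σ, h⟩)
    · exact Or.inl ((List.suffix_cons a u).trans h)
    · cases σ with
      | nil => left; rw [show F.s c₀ = a :: u from h.symm]; exact List.suffix_cons a u
      | cons i σ =>
        have h' : a :: u = F.s (F.nxt (F.st c₀ σ) i) := h
        rw [F.stem, List.cons.injEq] at h'
        exact Or.inr ⟨σ, h'.2⟩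
  · rintro u (h | ⟨σ, rfl⟩)
    · exact Or.inl h
    · exact Or.inr (F.stem_suffix c₀ (σ := []) (List.nil_suffix))
  · have key : ∀ σ, {a : ℕ | a :: F.s (F.st c₀ σ) ∈ F.tree c₀}.Infinite := by
      intro σ
      refine (Set.infinite_range_of_injective (F.mono (F.st c₀ σ)).injective).mono ?_
      rintro _ ⟨i, rfl⟩
      right
      refine ⟨i :: σ, ?_⟩
      show _ = F.s (F.nxt (F.st c₀ σ) i)
      rw [F.stem]
    rintro u (h | ⟨σ, rfl⟩) hs
    · have := suffix_eq_of_length h hs.length_le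
      rw [this]
      exact key []
    · exact key σ

/-- A node of the fusion tree extending the stem is the stem of a state. -/
theorem exists_index {w : Node} (hw : w ∈ F.tree c₀) (hs : F.s c₀ <:+ w) :
    ∃ σ, w = F.s (F.st c₀ σ) := by
  rcases hw with h | h
  · exact ⟨[], suffix_eq_of_length h hs.length_le⟩
  · exact h

/-- The part of the fusion tree above the stem of a state is contained in the tree of that
state. -/
theorem restrict_sub (σ : List ℕ) :
    restrict (F.tree c₀) (F.s (F.st c₀ σ)) ⊆ F.T (F.st c₀ σ) := by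
  rintro w ⟨hw, hc⟩
  rcases hc with hc | hc
  · exact (F.laver _).suffix _ _ (F.laver _).mem hc
  · obtain ⟨τ, rfl⟩ := F.exists_index c₀ hw
      ((F.stem_suffix c₀ (σ := []) (List.nil_suffix)).trans hc)
    exact F.sub_of_suffix c₀ (F.suffix_of_stem c₀ hc) (F.laver _).mem

end Fusion

/-! ### Laver forcing adds no half-Cohen real -/

/-- A Laver tree with its stem. -/
structure LT where
  T : Set Node
  s : Node
  h : IsLaver T s

/-- The alternatives for the value of `x(n)`: the values below `b n`, and `≥ b n`. -/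
def Alt (x : RealName Laver) (b : ℕ → ℕ) (n i : ℕ) (R : Set Node) : Prop :=
  ∃ hR : ∃ t, IsLaver R t, (i < b n ∧ x.val n i ⟨R, hR⟩) ∨
    (i = b n ∧ ∃ k, b n ≤ k ∧ x.val n k ⟨R, hR⟩)

theorem exists_decs (x : RealName Laver) (b : ℕ → ℕ) (L : LT) :
    ∃ (S : ℕ → Set Node) (v : ℕ → ℕ), (∀ n, IsLaver (S n) L.s) ∧ (∀ n, S n ⊆ L.T) ∧
      (∀ n, S (n + 1) ⊆ S n) ∧ ∀ n R t, IsLaver R t → R ⊆ S n →
        ∃ R' t', IsLaver R' t' ∧ R' ⊆ R ∧ Alt x b n (v n) R' := by
  have step : ∀ (n : ℕ) (M : {M : Set Node // IsLaver M L.s}),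
      ∃ (M' : {M : Set Node // IsLaver M L.s}) (v : ℕ), M'.1 ⊆ M.1 ∧
        ∀ R t, IsLaver R t → R ⊆ M'.1 → ∃ R' t', IsLaver R' t' ∧ R' ⊆ R ∧ Alt x b n v R' := by
    intro n M
    obtain ⟨T', h1, h2, i, _, h3⟩ := pure_decision (m := b n + 1) (Alt x b n) (by
      rintro i R R' t t' hR hR' hsub ⟨hR0, h⟩
      refine ⟨⟨t', hR'⟩, ?_⟩
      rcases h with ⟨h1, h2⟩ | ⟨h1, k, h2, h3⟩
      · exact Or.inl ⟨h1, x.mono (r := ⟨R, hR0⟩) hsub h2⟩
      · exact Or.inr ⟨h1, k, h2, x.mono (r := ⟨R, hR0⟩) hsub h3⟩) (by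
      intro R t hR
      obtain ⟨r', hr', k, hk⟩ := x.total n ⟨R, t, hR⟩
      obtain ⟨t', ht'⟩ := r'.h
      refine ⟨r'.T, t', ht', hr', ?_⟩
      by_cases hkb : k < b n
      · exact ⟨k, by omega, r'.h, Or.inl ⟨hkb, hk⟩⟩
      · exact ⟨b n, by omega, r'.h, Or.inr ⟨rfl, k, not_lt.1 hkb, hk⟩⟩) M.2
    exact ⟨⟨T', h1⟩, i, h2, h3⟩
  choose g v hg1 hg2 using step
  let S : ℕ → {M : Set Node // IsLaver M L.s} :=
    fun n => Nat.rec (g 0 ⟨L.T, L.h⟩) (fun n M => g (n + 1) M) n
  have hS : ∀ n, (S n).1 ⊆ L.T := by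
    intro n
    induction n with
    | zero => exact hg1 0 _
    | succ n ih => exact (hg1 (n + 1) (S n)).trans ih
  refine ⟨fun n => (S n).1, fun n => Nat.casesOn n (v 0 ⟨L.T, L.h⟩) (fun n => v (n + 1) (S n)),
    fun n => (S n).2, hS, fun n => hg1 (n + 1) (S n), ?_⟩
  intro n
  cases n with
  | zero => exact hg2 0 _
  | succ n => exact hg2 (n + 1) (S n)

/-- The index sequences which are active at time `n`. -/
def Act (n : ℕ) : Set (List ℕ) := {σ | ∀ (j : ℕ) (ρ : List ℕ), (j :: ρ) <:+ σ → j + ρ.length < n}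

theorem act_finite (n : ℕ) : (Act n).Finite := by
  have h1 : {l : List (Fin n) | l.length ≤ n}.Finite := List.finite_length_le (Fin n) n
  refine (h1.image (List.map Fin.val)).subset ?_
  intro σ hσ
  have hlen : σ.length ≤ n := by
    cases σ with
    | nil => exact Nat.zero_le _
    | cons j ρ =>
      have := hσ j ρ (List.suffix_refl _)
      simp only [List.length_cons]; omega
  have hent : ∀ a ∈ σ, a < n := by
    intro a ha
    obtain ⟨l1, l2, rfl⟩ := List.append_of_mem ha
    have := hσ a l2 (List.suffix_append l1 (a :: l2))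
    omega
  refine ⟨σ.pmap (fun a (ha : a < n) => (⟨a, ha⟩ : Fin n)) hent, ?_, ?_⟩
  · simpa using hlen
  · rw [List.map_pmap]
    simp

theorem exists_act (n : ℕ) (τ : List ℕ) : (∀ (j : ℕ) (ρ : List ℕ), (j :: ρ) <:+ τ →
    j + ρ.length < n) ∨ ∃ (i : ℕ) (σ : List ℕ), (i :: σ) <:+ τ ∧ n ≤ i + σ.length ∧ σ ∈ Act n := by
  induction τ with
  | nil =>
    left
    intro j ρ h
    rw [List.suffix_nil] at h
    exact absurd h (List.cons_ne_nil _ _)
  | cons i τ ih =>
    rcases ih with ih | ⟨j, σ, h1, h2, h3⟩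
    · by_cases hn : i + τ.length < n
      · left
        intro j ρ h
        rcases List.suffix_cons_iff.1 h with h4 | h4
        · rw [List.cons.injEq] at h4
          rw [h4.1, h4.2]; exact hn
        · exact ih j ρ h4
      · right
        exact ⟨i, τ, List.suffix_refl _, not_lt.1 hn, ih⟩
    · right
      exact ⟨j, σ, h1.trans (List.suffix_cons _ _), h2, h3⟩

theorem laver_no_halfCohen : ¬ AddsHalfCohen Laver := by
  classical
  rintro ⟨x, r, hx⟩
  obtain ⟨s, hs⟩ := r.h
  let b : ℕ → ℕ := fun n => (act_finite n).toFinset.card + 1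
  choose S v hS1 hS2 hS3 hS4 using exists_decs x b
  have hS5 : ∀ (L : LT) (m n : ℕ), n ≤ m → S L m ⊆ S L n := by
    intro L m n hmn
    induction hmn with
    | refl => exact subset_refl _
    | step _ ih => exact (hS3 L _).trans ih
  have hinf : ∀ (c : LT × ℕ) (i : ℕ), {a : ℕ | a :: c.1.s ∈ S c.1 (i + c.2)}.Infinite :=
    fun c i => (hS1 c.1 _).split _ (hS1 c.1 _).mem (List.suffix_refl _)
  choose a ha1 ha2 using fun c : LT × ℕ => exists_strictMono_mem _ (hinf c)
  let F : Fusion (LT × ℕ) :=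
    { T := fun c => c.1.T
      s := fun c => c.1.s
      a := a
      nxt := fun c i => (⟨restrict (S c.1 (i + c.2)) (a c i :: c.1.s), a c i :: c.1.s,
        (hS1 c.1 _).restrict (ha2 c i) (List.suffix_cons _ _)⟩, c.2 + 1)
      laver := fun c => c.1.h
      mono := ha1
      stem := fun c i => rfl
      sub := fun c i => (restrict_subset _ _).trans (hS2 _ _) }
  let c₀ : LT × ℕ := (⟨r.T, s, hs⟩, 0)
  have hdepth : ∀ σ : List ℕ, (F.st c₀ σ).2 = σ.length := by
    intro σ
    induction σ with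
    | nil => rfl
    | cons i σ ih =>
      show (F.st c₀ σ).2 + 1 = _
      rw [ih]; rfl
  -- the ground model real
  have hf : ∀ n, ∃ m, m < b n ∧ ∀ σ ∈ Act n, m ≠ v (F.st c₀ σ).1 n := by
    intro n
    by_contra hno
    push Not at hno
    have hsub : Finset.range (b n) ⊆
        (act_finite n).toFinset.image (fun σ => v (F.st c₀ σ).1 n) := by
      intro m hm
      obtain ⟨σ, hσ, hmσ⟩ := hno m (Finset.mem_range.1 hm)
      exact Finset.mem_image.2 ⟨σ, (Set.Finite.mem_toFinset _).2 hσ, hmσ.symm⟩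
    have h1 := Finset.card_le_card hsub
    have h2 : ((act_finite n).toFinset.image (fun σ => v (F.st c₀ σ).1 n)).card ≤
      (act_finite n).toFinset.card := Finset.card_image_le
    rw [Finset.card_range] at h1
    have h3 : b n = (act_finite n).toFinset.card + 1 := rfl
    omega
  choose f hf1 hf2 using hf
  obtain ⟨r'', hr'', n, -, hval⟩ := hx f 0 ⟨F.tree c₀, _, F.tree_isLaver c₀⟩ (F.tree_sub c₀)
  obtain ⟨t, ht⟩ := r''.h
  obtain ⟨u, hu, htu, hlen⟩ := ht.exists_long (s.length + (n + 1))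
  have hsu : s <:+ u := ((F.tree_isLaver c₀).stem_le ht hr'').trans htu
  obtain ⟨τ, hτ⟩ := F.exists_index c₀ (hr'' hu) hsu
  have hτlen : n < τ.length := by
    have := F.length_stem c₀ τ
    rw [← hτ] at this
    have h2 : (F.s c₀).length = s.length := rfl
    omega
  have hR : restrict r''.T u ⊆ F.T (F.st c₀ τ) := by
    intro w hw
    apply F.restrict_sub c₀ τ
    rw [← hτ]
    exact ⟨hr'' hw.1, hw.2⟩
  rcases exists_act n τ with hact | ⟨i, σ, hiσ, hni, hσ⟩
  · -- impossible
    have hne : τ ≠ [] := by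
      rintro rfl
      simp at hτlen
    have hex : ∀ (τ : List ℕ), n < τ.length → ∃ (j : ℕ) (ρ : List ℕ), (j :: ρ) <:+ τ ∧
        ρ.length = n := by
      intro τ
      induction τ with
      | nil => intro h; simp at h
      | cons j τ ih =>
        intro h
        by_cases hl : τ.length = n
        · exact ⟨j, τ, List.suffix_refl _, hl⟩
        · obtain ⟨j', ρ, h1, h2⟩ := ih (by simp only [List.length_cons] at h; omega)
          exact ⟨j', ρ, h1.trans (List.suffix_cons _ _), h2⟩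
    obtain ⟨j, ρ, h1, h2⟩ := hex τ hτlen
    have := hact j ρ h1
    omega
  · have h1 : F.T (F.st c₀ τ) ⊆ F.T (F.st c₀ (i :: σ)) := F.sub_of_suffix c₀ hiσ
    have h2 : F.T (F.st c₀ (i :: σ)) ⊆ S (F.st c₀ σ).1 (i + (F.st c₀ σ).2) :=
      restrict_subset _ _
    have h3 : S (F.st c₀ σ).1 (i + (F.st c₀ σ).2) ⊆ S (F.st c₀ σ).1 n := by
      apply hS5
      rw [hdepth]
      exact hni
    obtain ⟨R', t', hR', hR'sub, hAlt⟩ := hS4 (F.st c₀ σ).1 n (restrict r''.T u) u
      (ht.restrict hu htu) (((hR.trans h1).trans h2).trans h3)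
    obtain ⟨hR'0, halt⟩ := hAlt
    have hval' : x.val n (f n) ⟨R', hR'0⟩ := x.mono (r := r'')
      (hR'sub.trans (restrict_subset _ _)) hval
    rcases halt with ⟨_, h4⟩ | ⟨_, k, h4, h5⟩
    · exact hf2 n σ hσ (x.single hval' h4)
    · have := x.single hval' h5
      have := hf1 n
      omega

/-! ### The second forcing -/

/-- An infinite branch of the tree of all nodes. -/
def IsPath (g : ℕ → Node) : Prop := ∀ n, ∃ a, g (n + 1) = a :: g n

theorem IsPath.length {g : ℕ → Node} (hg : IsPath g) (n : ℕ) :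
    (g n).length = (g 0).length + n := by
  induction n with
  | zero => rfl
  | succ n ih =>
    obtain ⟨a, ha⟩ := hg n
    rw [ha, List.length_cons, ih]; omega

theorem IsPath.suffix {g : ℕ → Node} (hg : IsPath g) {m n : ℕ} (h : m ≤ n) : g m <:+ g n := by
  induction h with
  | refl => exact List.suffix_refl _
  | step _ ih =>
    obtain ⟨a, ha⟩ := hg _
    rw [ha]
    exact ih.trans (List.suffix_cons _ _)

/-- A (name for a) condition of the second forcing.  If `d` is the Laver real, `q` names the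
partial function `n ↦ q (d ↾ (n + 1))`; it is bounded by `d`, and its domain is co-infinite. -/
structure QCond where
  q : Node → Option ℕ
  nil : q [] = none
  bdd : ∀ (a : ℕ) (u : Node) (v : ℕ), q (a :: u) = some v → v ≤ a
  inf : ∀ g : ℕ → Node, IsPath g → ∀ N, ∃ n, N ≤ n ∧ q (g n) = none

/-- If `R` is a Laver tree below the Laver tree `T` with stem `s`, then `s` is in `R`. -/
theorem IsLaver.stem_mem_of_sub {T R : Set Node} {s t : Node} (h : IsLaver T s)
    (hR : IsLaver R t) (hsub : R ⊆ T) : s ∈ R :=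
  hR.suffix t s hR.mem (h.stem_le hR hsub)

/-- The name of the second forcing. -/
def EE : PosetName Laver where
  Q := QCond
  le p a b := ∀ u ∈ p.T, ∀ v, b.q u = some v → a.q u = some v
  mono := fun hp h u hu v hv => h u (hp hu) v hv
  refl := fun _ _ _ _ _ hv => hv
  trans := fun h1 h2 u hu v hv => h1 u hu v (h2 u hu v hv)
  dense := by
    intro p a b h u hu v hv
    obtain ⟨s, hs⟩ := p.h
    rcases hs.comp u hu with hc | hc
    · obtain ⟨p'', hp'', h''⟩ := h p (le_refl p)
      obtain ⟨t, ht⟩ := p''.h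
      exact h'' u (ht.suffix s u (hs.stem_mem_of_sub ht hp'') hc) v hv
    · obtain ⟨p'', hp'', h''⟩ := h ⟨restrict p.T u, u, hs.restrict hu hc⟩ (restrict_subset _ _)
      obtain ⟨t, ht⟩ := p''.h
      exact h'' u ((hs.restrict hu hc).stem_mem_of_sub ht hp'') v hv

theorem EE_le_def {p : Laver} {a b : QCond} :
    EE.le p a b ↔ ∀ u ∈ p.T, ∀ v, b.q u = some v → a.q u = some v := Iff.rfl

/-- `z` forces `x(k) = v`. -/
def Fv (x : RealName EE.Iter) (k v : ℕ) (z : EE.Iter) : Prop :=
  ∀ z' ≤ z, ∃ z'' ≤ z', x.val k v z''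

theorem Fv.mono {x : RealName EE.Iter} {k v : ℕ} {z z' : EE.Iter} (h : Fv x k v z) (hz : z' ≤ z) :
    Fv x k v z' := fun w hw => h w (hw.trans hz)

theorem Fv.unique {x : RealName EE.Iter} {k v v' : ℕ} {z : EE.Iter} (h : Fv x k v z)
    (h' : Fv x k v' z) : v = v' := by
  obtain ⟨z1, hz1, h1⟩ := h z (le_refl z)
  obtain ⟨z2, hz2, h2⟩ := h' z1 hz1
  exact x.single (x.mono hz2 h1) h2

/-- `(p, q)` decides `x(k)` up to the generic filter of the first forcing. -/
def Good1 (x : RealName EE.Iter) (k : ℕ) (p : Laver) (q : QCond) : Prop :=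
  ∀ r ≤ p, ∃ r' ≤ r, ∃ v, Fv x k v ⟨r', q⟩

theorem Good1.mono {x : RealName EE.Iter} {k : ℕ} {p p' : Laver} {q q' : QCond}
    (h : Good1 x k p q) (hp : p' ≤ p) (hq : EE.le p' q' q) : Good1 x k p' q' := by
  intro r hr
  obtain ⟨r', hr', v, hv⟩ := h r (hr.trans hp)
  refine ⟨r', hr', v, hv.mono ⟨le_refl r', EE.mono (hr'.trans hr) hq⟩⟩

theorem pigeon (u : Node) : ∀ (B : Set ℕ), B.Infinite → ∀ (Q : ℕ → QCond),
    ∃ B' ⊆ B, B'.Infinite ∧ ∀ a ∈ B', ∀ a' ∈ B', ∀ w, w <:+ u → (Q a).q w = (Q a').q w := by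
  induction u with
  | nil =>
    intro B hB Q
    refine ⟨B, subset_refl _, hB, fun a _ a' _ w hw => ?_⟩
    rw [List.suffix_nil] at hw
    rw [hw, (Q a).nil, (Q a').nil]
  | cons b u ih =>
    intro B hB Q
    obtain ⟨B', hB', hinf, heq⟩ := ih B hB Q
    have hfin : {o : Option ℕ | ∀ v, o = some v → v ≤ b}.Finite := by
      refine ((Set.finite_Iic b).image some |>.insert none).subset ?_
      intro o ho
      cases o with
      | none => exact Set.mem_insert _ _
      | some v => exact Set.mem_insert_of_mem _ ⟨v, ho v rfl, rfl⟩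
    have hpig : ∃ o, {a : ℕ | a ∈ B' ∧ (Q a).q (b :: u) = o}.Infinite := by
      by_contra hno
      push Not at hno
      apply hinf
      have hsub : B' ⊆ ⋃ o ∈ {o : Option ℕ | ∀ v, o = some v → v ≤ b},
          {a : ℕ | a ∈ B' ∧ (Q a).q (b :: u) = o} := by
        intro a ha
        simp only [Set.mem_iUnion]
        exact ⟨(Q a).q (b :: u), (Q a).bdd b u, ha, rfl⟩
      exact Set.Finite.subset (hfin.biUnion (fun o _ => hno o)) hsub
    obtain ⟨o, ho⟩ := hpig
    refine ⟨{a : ℕ | a ∈ B' ∧ (Q a).q (b :: u) = o}, fun a ha => hB' ha.1, ho, ?_⟩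
    intro a ha a' ha' w hw
    rcases List.suffix_cons_iff.1 hw with h1 | h1
    · rw [h1, ha.2, ha'.2]
    · exact heq a ha.1 a' ha'.1 w h1

theorem cons_suffix_unique {a b : ℕ} {u w : Node} (h1 : (a :: u) <:+ w) (h2 : (b :: u) <:+ w) :
    a = b := by
  rcases List.suffix_or_suffix_of_suffix h1 h2 with h3 | h3
  · have := suffix_eq_of_length h3 (by simp)
    simpa using this
  · have := suffix_eq_of_length h3 (by simp)
    simpa using this.symm

open Classical in
/-- Glueing of names of conditions. -/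
noncomputable def glueQ (u : Node) (B : Set ℕ) (P : ℕ → Laver) (Q : ℕ → QCond) (a0 : ℕ) :
    QCond where
  q := fun w => if w <:+ u then (Q a0).q w else
    if h : ∃ a, a ∈ B ∧ (a :: u) <:+ w ∧ w ∈ (P a).T then (Q h.choose).q w else none
  nil := by
    rw [if_pos (List.nil_suffix)]
    exact (Q a0).nil
  bdd := by
    intro a w v h
    split_ifs at h with h1 h2
    · exact (Q a0).bdd a w v h
    · exact (Q _).bdd a w v h
  inf := by
    intro g hg N
    by_contra hno
    push Not at hno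
    have h1 : ∀ n, N + u.length + 1 ≤ n → ∃ a, a ∈ B ∧ (a :: u) <:+ g n ∧ g n ∈ (P a).T ∧
        (Q a).q (g n) ≠ none := by
      intro n hn
      have h2 := hno n (by omega)
      have h3 : ¬ (g n) <:+ u := by
        intro h4
        have := h4.length_le
        rw [hg.length n] at this
        omega
      rw [if_neg h3] at h2
      split_ifs at h2 with h5
      · exact ⟨h5.choose, h5.choose_spec.1, h5.choose_spec.2.1, h5.choose_spec.2.2, h2⟩
      · exact absurd rfl h2
    obtain ⟨a, ha, hau, _, _⟩ := h1 (N + u.length + 1) le_rfl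
    obtain ⟨n, hn, hnone⟩ := (Q a).inf g hg (N + u.length + 1)
    obtain ⟨a', ha', hau', _, hne⟩ := h1 n hn
    have : a = a' := cons_suffix_unique (hau.trans (hg.suffix hn)) hau'
    rw [this] at hnone
    exact hne hnone

theorem glueQ_eq {u : Node} {B : Set ℕ} {P : ℕ → Laver} {Q : ℕ → QCond} {a0 : ℕ}
    (ha0 : a0 ∈ B) (hP : ∀ a ∈ B, IsLaver (P a).T (a :: u))
    (hQ : ∀ a ∈ B, ∀ a' ∈ B, ∀ w, w <:+ u → (Q a).q w = (Q a').q w) {a : ℕ} (ha : a ∈ B)
    {w : Node} (hw : w ∈ (P a).T) : (glueQ u B P Q a0).q w = (Q a).q w := by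
  classical
  simp only [glueQ]
  by_cases h1 : w <:+ u
  · rw [if_pos h1]
    exact hQ a0 ha0 a ha w h1
  · rw [if_neg h1]
    have h2 : (a :: u) <:+ w := by
      rcases (hP a ha).comp w hw with h3 | h3
      · rcases List.suffix_cons_iff.1 h3 with h4 | h4
        · rw [h4]
        · exact absurd h4 h1
      · exact h3
    have h3 : ∃ a, a ∈ B ∧ (a :: u) <:+ w ∧ w ∈ (P a).T := ⟨a, ha, h2, hw⟩
    rw [dif_pos h3]
    have : h3.choose = a := cons_suffix_unique h3.choose_spec.2.1 h2
    rw [this]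

/-- Every condition has a pure extension deciding `x(k)` up to the first generic filter. -/
theorem lemmaB (x : RealName EE.Iter) (k : ℕ) (p : Laver) (s : Node) (h : IsLaver p.T s)
    (q : QCond) : ∃ p' ≤ p, IsLaver p'.T s ∧ ∃ q' : QCond,
      EE.le p' q' q ∧ Good1 x k p' q' := by
  classical
  let Good : Node → Prop := fun u => ∃ p' : Laver, p'.T ⊆ restrict p.T u ∧ IsLaver p'.T u ∧
    ∃ q' : QCond, EE.le p' q' q ∧ Good1 x k p' q'
  by_cases hg : Good s
  · obtain ⟨p', h1, h2, h3⟩ := hg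
    exact ⟨p', h1.trans (restrict_subset _ _), h2, h3⟩
  · exfalso
    obtain ⟨R, hR, hRT, hbad⟩ := bad_tree h Good hg (by
      intro u hu hs hinf
      set B := {a : ℕ | a :: u ∈ p.T ∧ Good (a :: u)} with hBdef
      have hch : ∀ a : ℕ, ∃ (P : Laver) (Q : QCond), a ∈ B → (P.T ⊆ restrict p.T (a :: u) ∧
          IsLaver P.T (a :: u) ∧ EE.le P Q q ∧ Good1 x k P Q) := by
        intro a
        by_cases ha : a ∈ B
        · obtain ⟨_, P, h1, h2, Q, h3, h4⟩ := ha
          exact ⟨P, Q, fun _ => ⟨h1, h2, h3, h4⟩⟩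
        · exact ⟨p, q, fun h => absurd h ha⟩
      choose P Q hPQ using hch
      obtain ⟨B', hB'B, hB'inf, hB'eq⟩ := pigeon u B hinf Q
      obtain ⟨a0, ha0⟩ := hB'inf.nonempty
      have hL : ∀ a ∈ B', IsLaver (P a).T (a :: u) := fun a ha => (hPQ a (hB'B ha)).2.1
      have hglue := glue_isLaver hB'inf (F := fun a => (P a).T) hL
      have hgq : ∀ a ∈ B', ∀ w ∈ (P a).T, (glueQ u B' P Q a0).q w = (Q a).q w :=
        fun a ha w hw => glueQ_eq ha0 hL hB'eq ha hw
      refine ⟨⟨glue B' (fun a => (P a).T), u, hglue⟩, ?_, hglue, glueQ u B' P Q a0, ?_, ?_⟩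
      · rintro w ⟨a, ha, hw⟩
        have h1 := (hPQ a (hB'B ha)).1 hw
        refine ⟨h1.1, ?_⟩
        rcases h1.2 with h2 | h2
        · rcases List.suffix_cons_iff.1 h2 with h3 | h3
          · right; rw [h3]; exact List.suffix_cons a u
          · exact Or.inl h3
        · exact Or.inr ((List.suffix_cons a u).trans h2)
      · rintro w ⟨a, ha, hw⟩ v hv
        rw [hgq a ha w hw]
        exact (hPQ a (hB'B ha)).2.2.1 w hw v hv
      · intro r hr
        obtain ⟨t, ht⟩ := r.h
        obtain ⟨a, ha, R1, t1, hR1, hR1R, hR1F⟩ := glue_shrink hL ht hr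
        obtain ⟨r', hr', v, hv⟩ := (hPQ a (hB'B ha)).2.2.2 ⟨R1, t1, hR1⟩ hR1F
        refine ⟨r', hr'.trans hR1R, v, hv.mono ⟨le_refl r', ?_⟩⟩
        intro w hw v' hv'
        show (glueQ u B' P Q a0).q w = some v'
        rw [hgq a ha w (hR1F (hr' hw))]
        exact hv')
    obtain ⟨⟨p2, q2⟩, hz', v, hv⟩ := x.total k ⟨⟨R, s, hR⟩, q⟩
    obtain ⟨t', ht'⟩ := p2.h
    have hst : s <:+ t' := hR.stem_le ht' hz'.1
    refine hbad t' (hz'.1 ht'.mem) hst ⟨p2, ?_, ht', q2, hz'.2, ?_⟩
    · intro w hw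
      exact ⟨hRT (hz'.1 hw), ht'.comp w hw⟩
    · intro r hr
      refine ⟨r, le_refl r, v, fun z hz => ⟨z, le_refl z, x.mono ?_ hv⟩⟩
      exact hz.trans ⟨hr, EE.refl _ _⟩

/-! ### Total assignments on the initial segments of the stem -/

/-- The total assignments of values on the nonempty initial segments of `s`. -/
def Asg (s : Node) : Set (Node → Option ℕ) :=
  {σ | (∀ w, ¬ w <:+ s → σ w = none) ∧ σ [] = none ∧
    ∀ a u, (a :: u) <:+ s → ∃ v ≤ a, σ (a :: u) = some v}

theorem asg_finite (s : Node) : (Asg s).Finite := by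
  classical
  induction s with
  | nil =>
    refine (Set.finite_singleton (fun _ => none)).subset ?_
    rintro σ ⟨h1, h2, -⟩
    rw [Set.mem_singleton_iff]
    funext w
    by_cases hw : w <:+ []
    · rw [List.suffix_nil] at hw
      rw [hw]; exact h2
    · exact h1 w hw
  | cons b s ih =>
    refine (Set.Finite.image2 (fun (σ : Node → Option ℕ) (v : ℕ) =>
      Function.update σ (b :: s) (some v)) ih (Set.finite_Iic b)).subset ?_
    rintro σ ⟨h1, h2, h3⟩
    obtain ⟨v, hv, hσv⟩ := h3 b s (List.suffix_refl _)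
    refine ⟨Function.update σ (b :: s) none, ⟨?_, ?_, ?_⟩, v, hv, ?_⟩
    · intro w hw
      by_cases hwb : w = b :: s
      · rw [hwb, Function.update_self]
      · rw [Function.update_of_ne hwb]
        refine h1 w (fun hc => ?_)
        rcases List.suffix_cons_iff.1 hc with h4 | h4
        · exact hwb h4
        · exact hw h4
    · rw [Function.update_of_ne (by simp)]
      exact h2
    · intro a u hau
      have hne : a :: u ≠ b :: s := by
        intro he
        have := hau.length_le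
        rw [he] at this
        simp at this
      rw [Function.update_of_ne hne]
      exact h3 a u (hau.trans (List.suffix_cons _ _))
    · simp only
      rw [Function.update_idem, ← hσv, Function.update_eq_self]

instance (s : Node) : Finite (Asg s) := (asg_finite s).to_subtype

theorem inf_of_eventually {q : Node → Option ℕ} {q' : Node → Option ℕ} (s : Node)
    (h : ∀ w, ¬ w <:+ s → q' w = q w)
    (hq : ∀ g : ℕ → Node, IsPath g → ∀ N, ∃ n, N ≤ n ∧ q (g n) = none) :
    ∀ g : ℕ → Node, IsPath g → ∀ N, ∃ n, N ≤ n ∧ q' (g n) = none := by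
  intro g hg N
  obtain ⟨n, hn, hnone⟩ := hq g hg (N + s.length + 1)
  refine ⟨n, by omega, ?_⟩
  rw [h _ (fun hc => ?_), hnone]
  have := hc.length_le
  rw [hg.length n] at this
  omega

open Classical in
/-- Override `q` by the assignment `σ` on the initial segments of `s`. -/
noncomputable def ov (s : Node) (σ : Asg s) (q : QCond) : QCond where
  q := fun w => if w <:+ s then σ.1 w else q.q w
  nil := by
    rw [if_pos (List.nil_suffix)]
    exact σ.2.2.1
  bdd := by
    intro a u v h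
    split_ifs at h with h1
    · obtain ⟨v', hv', he⟩ := σ.2.2.2 a u h1
      rw [he] at h
      rw [← Option.some.inj h]; exact hv'
    · exact q.bdd a u v h
  inf := inf_of_eventually s (fun w hw => if_neg hw) q.inf

open Classical in
/-- `q₁` on the initial segments of `s`, and `q₂` elsewhere. -/
noncomputable def splice (s : Node) (q₁ q₂ : QCond) : QCond where
  q := fun w => if w <:+ s then q₁.q w else q₂.q w
  nil := by
    rw [if_pos (List.nil_suffix)]
    exact q₁.nil
  bdd := by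
    intro a u v h
    split_ifs at h with h1
    · exact q₁.bdd a u v h
    · exact q₂.bdd a u v h
  inf := inf_of_eventually s (fun w hw => if_neg hw) q₂.inf

theorem ov_pos {s w : Node} (σ : Asg s) (q : QCond) (h : w <:+ s) : (ov s σ q).q w = σ.1 w :=
  if_pos h

theorem ov_neg {s w : Node} (σ : Asg s) (q : QCond) (h : ¬ w <:+ s) : (ov s σ q).q w = q.q w :=
  if_neg h

theorem splice_pos {s w : Node} (q₁ q₂ : QCond) (h : w <:+ s) :
    (splice s q₁ q₂).q w = q₁.q w := if_pos h

theorem splice_neg {s w : Node} (q₁ q₂ : QCond) (h : ¬ w <:+ s) :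
    (splice s q₁ q₂).q w = q₂.q w := if_neg h

theorem lemmaA_aux (x : RealName EE.Iter) (k : ℕ) (p : Laver) (s : Node) (h : IsLaver p.T s)
    (q : QCond) (F : Set (Asg s)) (hF : F.Finite) : ∃ p' ≤ p, IsLaver p'.T s ∧ ∃ q' : QCond,
      EE.le p' q' q ∧ (∀ w, w <:+ s → q'.q w = q.q w) ∧ ∀ σ ∈ F, Good1 x k p' (ov s σ q') := by
  induction F, hF using Set.Finite.induction_on with
  | empty =>
    exact ⟨p, le_refl p, h, q, EE.refl _ _, fun _ _ => rfl, fun σ hσ => absurd hσ (by simp)⟩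
  | @insert σ F hσ _ ih =>
    obtain ⟨p1, hp1, hL1, q1, hq1, heq1, hgood1⟩ := ih
    obtain ⟨p2, hp2, hL2, q2, hq2, hgood2⟩ := lemmaB x k p1 s hL1 (ov s σ q1)
    have hle1 : EE.le p2 (splice s q1 q2) q1 := by
      intro w hw v hv
      by_cases hws : w <:+ s
      · rw [splice_pos q1 q2 hws]; exact hv
      · rw [splice_neg q1 q2 hws]
        apply hq2 w hw v
        rw [ov_neg σ q1 hws]; exact hv
    refine ⟨p2, hp2.trans hp1, hL2, splice s q1 q2, EE.trans hle1 (EE.mono hp2 hq1), ?_, ?_⟩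
    · intro w hw
      rw [splice_pos q1 q2 hw, heq1 w hw]
    · intro σ' hσ'
      rcases Set.mem_insert_iff.1 hσ' with rfl | hσ'
      · refine hgood2.mono (le_refl p2) ?_
        intro w hw v hv
        by_cases hws : w <:+ s
        · rw [ov_pos σ' _ hws]
          cases w with
          | nil => rw [q2.nil] at hv; exact absurd hv (by simp)
          | cons a u =>
            obtain ⟨v', _, he⟩ := σ'.2.2.2 a u hws
            have := hq2 (a :: u) hw v' (by rw [ov_pos σ' _ hws]; exact he)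
            rw [this] at hv
            rw [he, hv]
        · rw [ov_neg σ' _ hws, splice_neg q1 q2 hws]; exact hv
      · refine (hgood1 σ' hσ').mono hp2 ?_
        intro w hw v hv
        by_cases hws : w <:+ s
        · rw [ov_pos σ' _ hws] at hv ⊢; exact hv
        · rw [ov_neg σ' _ hws] at hv ⊢
          exact hle1 w hw v hv

theorem lemmaA (x : RealName EE.Iter) (k : ℕ) (p : Laver) (s : Node) (h : IsLaver p.T s)
    (q : QCond) : ∃ p' ≤ p, IsLaver p'.T s ∧ ∃ q' : QCond,
      EE.le p' q' q ∧ (∀ w, w <:+ s → q'.q w = q.q w) ∧ ∀ σ, Good1 x k p' (ov s σ q') := by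
  obtain ⟨p', h1, h2, q', h3, h4, h5⟩ := lemmaA_aux x k p s h q Set.univ Set.finite_univ
  exact ⟨p', h1, h2, q', h3, h4, fun σ => h5 σ (Set.mem_univ σ)⟩

/-- Finitely many open sets which are dense below `p` have a common element below `p`. -/
theorem finite_dense {ι : Type} [Finite ι] (D : ι → Laver → Prop)
    (hmono : ∀ i r r', r' ≤ r → D i r → D i r') (p : Laver)
    (hd : ∀ i, ∀ r ≤ p, ∃ r' ≤ r, D i r') : ∃ r ≤ p, ∀ i, D i r := by
  have key : ∀ F : Set ι, F.Finite → ∃ r ≤ p, ∀ i ∈ F, D i r := by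
    intro F hF
    induction F, hF using Set.Finite.induction_on with
    | empty => exact ⟨p, le_refl p, fun i hi => absurd hi (by simp)⟩
    | @insert i F hi _ ih =>
      obtain ⟨r, hr, h1⟩ := ih
      obtain ⟨r', hr', h2⟩ := hd i r hr
      refine ⟨r', hr'.trans hr, ?_⟩
      intro j hj
      rcases Set.mem_insert_iff.1 hj with rfl | hj
      · exact h2
      · exact hmono j r r' hr' (h1 j hj)
  obtain ⟨r, hr, h⟩ := key Set.univ Set.finite_univ
  exact ⟨r, hr, fun i => h i (Set.mem_univ i)⟩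

/-! ### The fusion for the iteration -/

/-- States of the fusion. -/
structure St3 where
  p : Laver
  s : Node
  h : IsLaver p.T s
  q : QCond
  k : ℕ

theorem exists_process (x : RealName EE.Iter) (c : St3) : ∃ (p' : Laver) (q' : QCond), p' ≤ c.p ∧
    IsLaver p'.T c.s ∧ EE.le p' q' c.q ∧ (∀ w, w <:+ c.s → q'.q w = c.q.q w) ∧
    (c.q.q c.s = none → ∀ σ, Good1 x c.k p' (ov c.s σ q')) ∧ (c.q.q c.s ≠ none → q' = c.q) := by
  by_cases hn : c.q.q c.s = none
  · obtain ⟨p', h1, h2, q', h3, h4, h5⟩ := lemmaA x c.k c.p c.s c.h c.q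
    exact ⟨p', q', h1, h2, h3, h4, fun _ => h5, fun h => absurd hn h⟩
  · exact ⟨c.p, c.q, le_refl _, c.h, EE.refl _ _, fun _ _ => rfl, fun h => absurd h hn,
      fun _ => rfl⟩

/-- A path through a Laver tree. -/
theorem IsLaver.exists_path {T : Set Node} {s u : Node} (h : IsLaver T s) (hu : u ∈ T)
    (hs : s <:+ u) : ∃ g : ℕ → Node, IsPath g ∧ g 0 = u ∧ ∀ n, g n ∈ T ∧ s <:+ g n := by
  have hch : ∀ w : {w : Node // w ∈ T ∧ s <:+ w}, ∃ a : ℕ, a :: w.1 ∈ T := fun w =>
    (h.split w.1 w.2.1 w.2.2).nonempty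
  choose a ha using hch
  let g : ℕ → {w : Node // w ∈ T ∧ s <:+ w} := fun n => Nat.rec ⟨u, hu, hs⟩
    (fun _ w => ⟨a w :: w.1, ha w, w.2.2.trans (List.suffix_cons _ _)⟩) n
  refine ⟨fun n => (g n).1, fun n => ⟨a (g n), rfl⟩, rfl, fun n => (g n).2⟩

section Main

variable (x : RealName EE.Iter)

/-- The tree of the processed state. -/
noncomputable def PP (c : St3) : Laver := (exists_process x c).choose

/-- The name of the processed state. -/
noncomputable def QQ (c : St3) : QCond := (exists_process x c).choose_spec.choose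

theorem PQ_spec (c : St3) : PP x c ≤ c.p ∧
    IsLaver (PP x c).T c.s ∧ EE.le (PP x c) (QQ x c) c.q ∧
    (∀ w, w <:+ c.s → (QQ x c).q w = c.q.q w) ∧
    (c.q.q c.s = none → ∀ σ, Good1 x c.k (PP x c) (ov c.s σ (QQ x c))) ∧
    (c.q.q c.s ≠ none → QQ x c = c.q) :=
  (exists_process x c).choose_spec.choose_spec

theorem exists_children (c : St3) : ∃ a : ℕ → ℕ, StrictMono a ∧ ∀ i, a i :: c.s ∈ (PP x c).T :=
  exists_strictMono_mem (fun _ => {a : ℕ | a :: c.s ∈ (PP x c).T})
    (fun _ => (PQ_spec x c).2.1.split _ (PQ_spec x c).2.1.mem (List.suffix_refl _))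

/-- The children chosen at a state. -/
noncomputable def AA (c : St3) : ℕ → ℕ := (exists_children x c).choose

theorem AA_mono (c : St3) : StrictMono (AA x c) := (exists_children x c).choose_spec.1

theorem AA_mem (c : St3) (i : ℕ) : AA x c i :: c.s ∈ (PP x c).T :=
  (exists_children x c).choose_spec.2 i

open Classical in
/-- The next state. -/
noncomputable def nxt3 (c : St3) (i : ℕ) : St3 where
  p := ⟨restrict (PP x c).T (AA x c i :: c.s), _,
    (PQ_spec x c).2.1.restrict (AA_mem x c i) (List.suffix_cons _ _)⟩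
  s := AA x c i :: c.s
  h := (PQ_spec x c).2.1.restrict (AA_mem x c i) (List.suffix_cons _ _)
  q := QQ x c
  k := if c.q.q c.s = none then c.k + 1 else c.k

/-- The fusion data. -/
noncomputable def F3 : Fusion St3 where
  T := fun c => c.p.T
  s := fun c => c.s
  a := AA x
  nxt := nxt3 x
  laver := fun c => c.h
  mono := AA_mono x
  stem := fun _ _ => rfl
  sub := fun c _ => (restrict_subset _ _).trans (PQ_spec x c).1

variable (c₀ : St3)

/-- The state of index `σ`. -/
noncomputable abbrev S3 (σ : List ℕ) : St3 := (F3 x).st c₀ σ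

theorem S3_cons (i : ℕ) (σ : List ℕ) : S3 x c₀ (i :: σ) = nxt3 x (S3 x c₀ σ) i := rfl

theorem S3_length (σ : List ℕ) : (S3 x c₀ σ).s.length = σ.length + c₀.s.length :=
  (F3 x).length_stem c₀ σ

theorem S3_inj {σ τ : List ℕ} (h : (S3 x c₀ σ).s = (S3 x c₀ τ).s) : σ = τ :=
  (F3 x).stem_inj c₀ h

theorem S3_stem_suffix {σ τ : List ℕ} (h : σ <:+ τ) : (S3 x c₀ σ).s <:+ (S3 x c₀ τ).s :=
  (F3 x).stem_suffix c₀ h

theorem S3_suffix_of_stem {σ τ : List ℕ} (h : (S3 x c₀ σ).s <:+ (S3 x c₀ τ).s) : σ <:+ τ :=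
  (F3 x).suffix_of_stem c₀ h

theorem S3_le {σ τ : List ℕ} (h : σ <:+ τ) : (S3 x c₀ τ).p ≤ (S3 x c₀ σ).p :=
  (F3 x).sub_of_suffix c₀ h

/-- The fusion tree. -/
noncomputable def Tstar : Laver := ⟨(F3 x).tree c₀, _, (F3 x).tree_isLaver c₀⟩

theorem Tstar_isLaver : IsLaver (Tstar x c₀).T c₀.s := (F3 x).tree_isLaver c₀

theorem Tstar_le : Tstar x c₀ ≤ c₀.p := (F3 x).tree_sub c₀

theorem exists_index3 {w : Node} (hw : w ∈ (Tstar x c₀).T) (hs : c₀.s <:+ w) :
    ∃ σ, w = (S3 x c₀ σ).s := (F3 x).exists_index c₀ hw hs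

theorem restrict_sub3 (σ : List ℕ) :
    restrict (Tstar x c₀).T (S3 x c₀ σ).s ⊆ (S3 x c₀ σ).p.T := (F3 x).restrict_sub c₀ σ

theorem stem_mem3 (σ : List ℕ) : (S3 x c₀ σ).s ∈ (S3 x c₀ σ).p.T := (S3 x c₀ σ).h.mem

theorem P2 {σ τ : List ℕ} (h : σ <:+ τ) (w : Node) (hw : w <:+ (S3 x c₀ σ).s) :
    (S3 x c₀ τ).q.q w = (S3 x c₀ σ).q.q w := by
  induction τ with
  | nil =>
    rw [List.suffix_nil] at h
    rw [h]
  | cons i τ ih =>
    rcases List.suffix_cons_iff.1 h with h1 | h1
    · rw [h1]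
    · rw [S3_cons]
      show (QQ x (S3 x c₀ τ)).q w = _
      rw [(PQ_spec x (S3 x c₀ τ)).2.2.2.1 w (hw.trans (S3_stem_suffix x c₀ h1))]
      exact ih h1

theorem P3 {σ τ : List ℕ} (h : σ <:+ τ) :
    EE.le (S3 x c₀ τ).p (S3 x c₀ τ).q (S3 x c₀ σ).q := by
  induction τ with
  | nil =>
    rw [List.suffix_nil] at h
    rw [h]
    exact EE.refl _ _
  | cons i τ ih =>
    rcases List.suffix_cons_iff.1 h with h1 | h1
    · rw [h1]
      exact EE.refl _ _
    · have h2 : (S3 x c₀ (i :: τ)).p ≤ PP x (S3 x c₀ τ) := restrict_subset _ _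
      refine EE.trans (b := QQ x (S3 x c₀ τ)) (EE.refl _ _) ?_
      exact EE.trans (EE.mono h2 (PQ_spec x (S3 x c₀ τ)).2.2.1)
        (EE.mono (h2.trans (PQ_spec x (S3 x c₀ τ)).1) (ih h1))

theorem P3' {i : ℕ} {σ τ : List ℕ} (h : (i :: σ) <:+ τ) :
    EE.le (S3 x c₀ τ).p (S3 x c₀ τ).q (QQ x (S3 x c₀ σ)) := P3 x c₀ h

theorem S3_le' {i : ℕ} {σ τ : List ℕ} (h : (i :: σ) <:+ τ) :
    (S3 x c₀ τ).p ≤ PP x (S3 x c₀ σ) := (S3_le x c₀ h).trans (restrict_subset _ _)

theorem k_mono {σ τ : List ℕ} (h : σ <:+ τ) : (S3 x c₀ σ).k ≤ (S3 x c₀ τ).k := by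
  induction τ with
  | nil =>
    rw [List.suffix_nil] at h
    rw [h]
  | cons i τ ih =>
    rcases List.suffix_cons_iff.1 h with h1 | h1
    · rw [h1]
    · refine (ih h1).trans ?_
      rw [S3_cons]
      simp only [nxt3]
      split_ifs <;> omega

theorem k_lt {i : ℕ} {σ τ : List ℕ} (h : (i :: σ) <:+ τ)
    (hn : (S3 x c₀ σ).q.q (S3 x c₀ σ).s = none) : (S3 x c₀ σ).k < (S3 x c₀ τ).k := by
  refine lt_of_lt_of_le ?_ (k_mono x c₀ h)
  rw [S3_cons]
  simp only [nxt3]
  rw [if_pos hn]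
  omega

theorem exists_k (k : ℕ) (hc : c₀.k = 0) (τ : List ℕ) (h : k < (S3 x c₀ τ).k) :
    ∃ (i : ℕ) (σ : List ℕ), (i :: σ) <:+ τ ∧ (S3 x c₀ σ).q.q (S3 x c₀ σ).s = none ∧
      (S3 x c₀ σ).k = k := by
  induction τ with
  | nil =>
    have : (S3 x c₀ []).k = c₀.k := rfl
    omega
  | cons i τ ih =>
    by_cases h1 : k < (S3 x c₀ τ).k
    · obtain ⟨j, σ, h2, h3, h4⟩ := ih h1
      exact ⟨j, σ, h2.trans (List.suffix_cons _ _), h3, h4⟩
    · rw [S3_cons] at h
      simp only [nxt3] at h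
      split_ifs at h with h2
      · exact ⟨i, τ, List.suffix_refl _, h2, by omega⟩
      · exact absurd h h1

open Classical in
/-- The limit of the names along the fusion. -/
noncomputable def qstarFun (w : Node) : Option ℕ :=
  if w <:+ c₀.s then c₀.q.q w else
    if h : ∃ σ, w = (S3 x c₀ σ).s then (S3 x c₀ h.choose).q.q w else none

theorem qstarFun_stem (σ : List ℕ) :
    qstarFun x c₀ (S3 x c₀ σ).s = (S3 x c₀ σ).q.q (S3 x c₀ σ).s := by
  classical
  unfold qstarFun
  by_cases h : (S3 x c₀ σ).s <:+ c₀.s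
  · rw [if_pos h]
    have h1 := h.length_le
    rw [S3_length] at h1
    have h2 : σ.length = 0 := by omega
    rw [List.length_eq_zero_iff.1 h2]
    rfl
  · rw [if_neg h]
    have h1 : ∃ τ, (S3 x c₀ σ).s = (S3 x c₀ τ).s := ⟨σ, rfl⟩
    rw [dif_pos h1]
    have h2 : σ = h1.choose := S3_inj x c₀ h1.choose_spec
    rw [← h2]

theorem child_index {τ : List ℕ} {a : ℕ} {σ : List ℕ}
    (h : a :: (S3 x c₀ σ).s = (S3 x c₀ τ).s) : ∃ i, τ = i :: σ := by
  cases τ with
  | nil =>
    have := congrArg List.length h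
    rw [List.length_cons, S3_length, S3_length] at this
    simp at this
    omega
  | cons i τ =>
    have h1 : a :: (S3 x c₀ σ).s = AA x (S3 x c₀ τ) i :: (S3 x c₀ τ).s := h
    rw [List.cons.injEq] at h1
    exact ⟨i, by rw [S3_inj x c₀ h1.2]⟩

/-- If no undefined node occurs, the name does not change along a path. -/
theorem const_of_defined {g : ℕ → Node} (hg : IsPath g) {σ : List ℕ} (h0 : g 0 = (S3 x c₀ σ).s)
    (hidx : ∀ n, ∃ τ, g n = (S3 x c₀ τ).s)
    (hdef : ∀ n τ, g n = (S3 x c₀ τ).s → (S3 x c₀ τ).q.q (g n) ≠ none) :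
    ∀ n, ∃ τ, g n = (S3 x c₀ τ).s ∧ (S3 x c₀ τ).q = (S3 x c₀ σ).q := by
  intro n
  induction n with
  | zero => exact ⟨σ, h0, rfl⟩
  | succ n ih =>
    obtain ⟨τ, h1, h2⟩ := ih
    obtain ⟨a, ha⟩ := hg n
    obtain ⟨ρ, hρ⟩ := hidx (n + 1)
    have h3 : a :: (S3 x c₀ τ).s = (S3 x c₀ ρ).s := by rw [← h1, ← ha, hρ]
    obtain ⟨i, hi⟩ := child_index x c₀ h3
    refine ⟨ρ, hρ, ?_⟩
    rw [hi, S3_cons]
    show QQ x (S3 x c₀ τ) = _
    have h4 := hdef n τ h1
    rw [h1] at h4
    rw [(PQ_spec x (S3 x c₀ τ)).2.2.2.2.2 h4, h2]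

theorem IsPath.shift {g : ℕ → Node} (hg : IsPath g) (m : ℕ) : IsPath (fun n => g (m + n)) :=
  fun n => hg (m + n)

/-- The limit of the names is a name of a condition. -/
noncomputable def qstar : QCond where
  q := qstarFun x c₀
  nil := by
    unfold qstarFun
    rw [if_pos (List.nil_suffix)]
    exact c₀.q.nil
  bdd := by
    intro a u v h
    unfold qstarFun at h
    split_ifs at h with h1 h2
    · exact c₀.q.bdd a u v h
    · exact (S3 x c₀ _).q.bdd a u v h
  inf := by
    classical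
    intro g hg N
    by_contra hno
    push Not at hno
    have hidx : ∀ n, N + c₀.s.length + 1 ≤ n → ∃ σ, g n = (S3 x c₀ σ).s := by
      intro n hn
      have h1 := hno n (by omega)
      unfold qstarFun at h1
      have h3 : ¬ (g n) <:+ c₀.s := by
        intro h4
        have := h4.length_le
        rw [hg.length n] at this
        omega
      rw [if_neg h3] at h1
      split_ifs at h1 with h5
      · exact h5
      · exact absurd rfl h1
    obtain ⟨σ, hσ⟩ := hidx (N + c₀.s.length + 1) le_rfl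
    have hconst := const_of_defined x c₀ (hg.shift (N + c₀.s.length + 1)) (σ := σ) hσ
      (fun n => hidx _ (by omega)) (by
        intro n τ hτ
        have h1 := hno (N + c₀.s.length + 1 + n) (by omega)
        have h2 : g (N + c₀.s.length + 1 + n) = (S3 x c₀ τ).s := hτ
        show (S3 x c₀ τ).q.q (g (N + c₀.s.length + 1 + n)) ≠ none
        rw [h2, qstarFun_stem] at h1
        rw [h2]; exact h1)
    obtain ⟨n, hn, hnone⟩ := (S3 x c₀ σ).q.inf g hg (N + c₀.s.length + 1)
    obtain ⟨τ, h1, h2⟩ := hconst (n - (N + c₀.s.length + 1))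
    have h3 : N + c₀.s.length + 1 + (n - (N + c₀.s.length + 1)) = n := by omega
    simp only [h3] at h1
    have h4 := hno n (by omega)
    rw [h1, qstarFun_stem, h2, ← h1] at h4
    exact h4 hnone

theorem qstar_stem (σ : List ℕ) :
    (qstar x c₀).q (S3 x c₀ σ).s = (S3 x c₀ σ).q.q (S3 x c₀ σ).s := qstarFun_stem x c₀ σ

theorem qstar_base (w : Node) (h : w <:+ c₀.s) : (qstar x c₀).q w = c₀.q.q w := by
  show qstarFun x c₀ w = _
  unfold qstarFun
  rw [if_pos h]

theorem P4 (τ : List ℕ) (w : Node) (hw : w <:+ (S3 x c₀ τ).s) :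
    (qstar x c₀).q w = (S3 x c₀ τ).q.q w := by
  have h0 : c₀.s <:+ (S3 x c₀ τ).s := S3_stem_suffix x c₀ (σ := []) (List.nil_suffix)
  rcases List.suffix_or_suffix_of_suffix hw h0 with h1 | h1
  · rw [qstar_base x c₀ w h1]
    exact (P2 x c₀ (σ := []) (τ := τ) (List.nil_suffix) w h1).symm
  · have hmem : (S3 x c₀ τ).s ∈ (Tstar x c₀).T := Or.inr ⟨τ, rfl⟩
    have hw' : w ∈ (Tstar x c₀).T := (Tstar_isLaver x c₀).suffix _ _ hmem hw
    obtain ⟨σ, hσ⟩ := exists_index3 x c₀ hw' h1
    rw [hσ] at hw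
    rw [hσ, qstar_stem]
    exact (P2 x c₀ (S3_suffix_of_stem x c₀ hw) _ (List.suffix_refl _)).symm

theorem qstar_le : EE.le (Tstar x c₀) (qstar x c₀) c₀.q := by
  intro w hw v hv
  rcases (Tstar_isLaver x c₀).comp w hw with h1 | h1
  · show (qstar x c₀).q w = some v
    rw [qstar_base x c₀ w h1]; exact hv
  · obtain ⟨σ, hσ⟩ := exists_index3 x c₀ hw h1
    show (qstar x c₀).q w = some v
    rw [hσ, qstar_stem]
    rw [hσ] at hv
    exact P3 x c₀ (σ := []) (List.nil_suffix) _ (stem_mem3 x c₀ σ) v hv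

/-- Beyond an index `σ`, the limit extends the processed name at `σ`. -/
theorem qstar_ext (σ : List ℕ) {w : Node} (hw : w ∈ (Tstar x c₀).T) (hs : (S3 x c₀ σ).s <:+ w)
    (hne : w ≠ (S3 x c₀ σ).s) {v : ℕ} (hv : (QQ x (S3 x c₀ σ)).q w = some v) :
    (qstar x c₀).q w = some v := by
  have h0 : c₀.s <:+ (S3 x c₀ σ).s := S3_stem_suffix x c₀ (σ := []) (List.nil_suffix)
  obtain ⟨τ, hτ⟩ := exists_index3 x c₀ hw (h0.trans hs)
  rw [hτ] at hs hne hv ⊢
  have h1 := S3_suffix_of_stem x c₀ hs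
  have h2 : ∃ i, (i :: σ) <:+ τ := by
    obtain ⟨l, rfl⟩ := h1
    rcases List.eq_nil_or_concat l with rfl | ⟨l', i, rfl⟩
    · exact absurd rfl hne
    · exact ⟨i, ⟨l', by simp⟩⟩
  obtain ⟨i, hi⟩ := h2
  rw [qstar_stem]
  exact P3' x c₀ hi _ (stem_mem3 x c₀ τ) v hv

/-- Every tree below the fusion tree contains nodes of large counter. -/
theorem exists_large (R : Set Node) (t : Node) (hR : IsLaver R t) (hsub : R ⊆ (Tstar x c₀).T)
    (m : ℕ) : ∃ τ, (S3 x c₀ τ).s ∈ R ∧ t <:+ (S3 x c₀ τ).s ∧ m ≤ (S3 x c₀ τ).k := by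
  have hst : c₀.s <:+ t := (Tstar_isLaver x c₀).stem_le hR hsub
  induction m with
  | zero =>
    obtain ⟨τ, hτ⟩ := exists_index3 x c₀ (hsub hR.mem) hst
    exact ⟨τ, hτ ▸ hR.mem, hτ ▸ List.suffix_refl _, Nat.zero_le _⟩
  | succ m ih =>
    obtain ⟨τ, h1, h2, h3⟩ := ih
    -- find an undefined node above
    have hex : ∃ ρ, (S3 x c₀ ρ).s ∈ R ∧ (S3 x c₀ τ).s <:+ (S3 x c₀ ρ).s ∧
        (S3 x c₀ ρ).q.q (S3 x c₀ ρ).s = none := by
      by_contra hno
      push Not at hno
      obtain ⟨g, hg, hg0, hgR⟩ := hR.exists_path h1 h2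
      have hidx : ∀ n, ∃ ρ, g n = (S3 x c₀ ρ).s := fun n =>
        exists_index3 x c₀ (hsub (hgR n).1) (hst.trans (hgR n).2)
      have hconst := const_of_defined x c₀ hg (σ := τ) hg0 hidx (by
        intro n ρ hρ
        have h4 : (S3 x c₀ τ).s <:+ (S3 x c₀ ρ).s := by
          rw [← hρ, ← hg0]
          exact hg.suffix (Nat.zero_le n)
        rw [hρ]
        exact hno ρ (hρ ▸ (hgR n).1) h4)
      obtain ⟨n, -, hn⟩ := (S3 x c₀ τ).q.inf g hg 0
      obtain ⟨ρ, h4, h5⟩ := hconst n
      have h6 : (S3 x c₀ τ).s <:+ (S3 x c₀ ρ).s := by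
        rw [← h4, ← hg0]
        exact hg.suffix (Nat.zero_le n)
      apply hno ρ (h4 ▸ (hgR n).1) h6
      rw [h5, ← h4]; exact hn
    obtain ⟨ρ, hρR, hτρ, hρn⟩ := hex
    obtain ⟨a, ha⟩ := (hR.split _ hρR (h2.trans hτρ)).nonempty
    have h5 : c₀.s <:+ a :: (S3 x c₀ ρ).s :=
      (hst.trans (h2.trans hτρ)).trans (List.suffix_cons _ _)
    obtain ⟨τ', hτ'⟩ := exists_index3 x c₀ (hsub ha) h5
    obtain ⟨i, hi⟩ := child_index x c₀ hτ'
    refine ⟨τ', hτ' ▸ ha, hτ' ▸ ((h2.trans hτρ).trans (List.suffix_cons _ _)), ?_⟩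
    have h6 := k_mono x c₀ (S3_suffix_of_stem x c₀ hτρ)
    have h7 := k_lt x c₀ (i := i) (σ := ρ) (τ := τ') (hi ▸ List.suffix_refl _) hρn
    omega

/-- The witness for the value of the bounding name. -/
def Wit (k v : ℕ) (r : Laver) : Prop :=
  ∃ σ, (S3 x c₀ σ).q.q (S3 x c₀ σ).s = none ∧ (S3 x c₀ σ).k = k ∧ r ≤ PP x (S3 x c₀ σ) ∧
    ∃ V : Asg (S3 x c₀ σ).s → ℕ,
      (∀ ρ, Fv x k (V ρ) ⟨r, ov (S3 x c₀ σ).s ρ (QQ x (S3 x c₀ σ))⟩) ∧ v = (⨆ ρ, V ρ) + 1

theorem wit_mono {k v : ℕ} {r r' : Laver} (hr : r' ≤ r) (h : Wit x c₀ k v r) :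
    Wit x c₀ k v r' := by
  obtain ⟨σ, h1, h2, h3, V, h4, h5⟩ := h
  exact ⟨σ, h1, h2, hr.trans h3, V, fun ρ => (h4 ρ).mono ⟨hr, EE.refl _ _⟩, h5⟩

theorem wit_single {k v v' : ℕ} {r : Laver} (h : Wit x c₀ k v r) (h' : Wit x c₀ k v' r) :
    v = v' := by
  obtain ⟨σ, h1, h2, h3, V, h4, h5⟩ := h
  obtain ⟨σ', h1', h2', h3', V', h4', h5'⟩ := h'
  obtain ⟨t, ht⟩ := r.h
  have e1 : (S3 x c₀ σ).s <:+ t := (PQ_spec x (S3 x c₀ σ)).2.1.stem_le ht h3
  have e2 : (S3 x c₀ σ').s <:+ t := (PQ_spec x (S3 x c₀ σ')).2.1.stem_le ht h3'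
  have key : ∀ {a b : List ℕ}, (S3 x c₀ a).q.q (S3 x c₀ a).s = none →
      (S3 x c₀ a).k = k → (S3 x c₀ b).k = k → (S3 x c₀ a).s <:+ (S3 x c₀ b).s → a = b := by
    intro a b ha hak hbk hab
    obtain ⟨l, hl⟩ := S3_suffix_of_stem x c₀ hab
    rcases List.eq_nil_or_concat l with rfl | ⟨l', i, rfl⟩
    · simpa using hl
    · exfalso
      have : (i :: a) <:+ b := ⟨l', by rw [← hl]; simp⟩
      have := k_lt x c₀ this ha
      omega
  have hσ : σ = σ' := by
    rcases List.suffix_or_suffix_of_suffix e1 e2 with h | h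
    · exact key h1 h2 h2' h
    · exact (key h1' h2' h2 h).symm
  subst hσ
  have hV : V = V' := by
    funext ρ
    exact (h4 ρ).unique (h4' ρ)
  rw [h5, h5', hV]

theorem wit_total (hc : c₀.k = 0) (k : ℕ) (r : Laver) (hr : r ≤ Tstar x c₀) :
    ∃ r' ≤ r, ∃ v, Wit x c₀ k v r' := by
  obtain ⟨t, ht⟩ := r.h
  obtain ⟨τ, h1, h2, h3⟩ := exists_large x c₀ r.T t ht hr (k + 1)
  obtain ⟨i, σ, h4, h5, h6⟩ := exists_k x c₀ k hc τ (by omega)
  have h7 : (⟨restrict r.T (S3 x c₀ τ).s, _, ht.restrict h1 h2⟩ : Laver) ≤ PP x (S3 x c₀ σ) := by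
    refine le_trans ?_ (S3_le' x c₀ h4)
    intro w hw
    exact restrict_sub3 x c₀ τ ⟨hr hw.1, hw.2⟩
  obtain ⟨r', hr', hD⟩ := finite_dense
    (fun (ρ : Asg (S3 x c₀ σ).s) (r : Laver) =>
      ∃ v, Fv x k v ⟨r, ov (S3 x c₀ σ).s ρ (QQ x (S3 x c₀ σ))⟩)
    (fun ρ r r' hr ⟨v, hv⟩ => ⟨v, hv.mono ⟨hr, EE.refl _ _⟩⟩)
    ⟨restrict r.T (S3 x c₀ τ).s, _, ht.restrict h1 h2⟩ (by
      intro ρ r1 hr1
      have := (PQ_spec x (S3 x c₀ σ)).2.2.2.2.1 h5 ρ r1 (hr1.trans h7)
      rw [h6] at this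
      exact this)
  choose V hV using hD
  exact ⟨r', hr'.trans (restrict_subset _ _), _, σ, h5, h6, hr'.trans h7, V, hV, rfl⟩

/-- The name of a real of the intermediate model avoided by `x`. -/
def gName (hc : c₀.k = 0) : RealName Laver where
  val := fun k v r => (r ≤ Tstar x c₀ ∧ Wit x c₀ k v r) ∨
    ((∀ r' ≤ r, ¬ r' ≤ Tstar x c₀) ∧ v = 0)
  mono := by
    intro k v r r' hr h
    rcases h with ⟨h1, h2⟩ | ⟨h1, h2⟩
    · exact Or.inl ⟨hr.trans h1, wit_mono x c₀ hr h2⟩
    · exact Or.inr ⟨fun r'' hr'' => h1 r'' (hr''.trans hr), h2⟩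
  total := by
    intro k r
    by_cases h : ∃ r' ≤ r, r' ≤ Tstar x c₀
    · obtain ⟨r', hr', h1⟩ := h
      obtain ⟨r'', hr'', v, hv⟩ := wit_total x c₀ hc k r' h1
      exact ⟨r'', hr''.trans hr', v, Or.inl ⟨hr''.trans h1, hv⟩⟩
    · push Not at h
      exact ⟨r, le_refl r, 0, Or.inr ⟨h, rfl⟩⟩
  single := by
    intro k v v' r h h'
    rcases h with ⟨h1, h2⟩ | ⟨h1, h2⟩
    · rcases h' with ⟨h1', h2'⟩ | ⟨h1', h2'⟩
      · exact wit_single x c₀ h2 h2'
      · exact absurd h1 (h1' r (le_refl r))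
    · rcases h' with ⟨h1', h2'⟩ | ⟨h1', h2'⟩
      · exact absurd h1' (h1 r (le_refl r))
      · rw [h2, h2']

open Classical in
/-- Complete a condition on the initial segments of a node. -/
noncomputable def complete (s : Node) (q : QCond) : QCond where
  q := fun w => if w <:+ s ∧ w ≠ [] ∧ q.q w = none then some 0 else q.q w
  nil := by
    rw [if_neg (by simp)]
    exact q.nil
  bdd := by
    intro a u v h
    split_ifs at h with h1
    · rw [← Option.some.inj h]; exact Nat.zero_le _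
    · exact q.bdd a u v h
  inf := inf_of_eventually (q := q.q)
    (q' := fun w => if w <:+ s ∧ w ≠ [] ∧ q.q w = none then some 0 else q.q w) s
    (fun w hw => if_neg (fun hc => hw (And.left hc))) q.inf

theorem complete_eq_of_some {s w : Node} {q : QCond} {v : ℕ} (h : q.q w = some v) :
    (complete s q).q w = some v := by
  simp only [complete]
  rw [if_neg]
  · exact h
  · rintro ⟨-, -, h1⟩
    rw [h] at h1
    exact absurd h1 (by simp)

theorem complete_asg (s : Node) (q : QCond) : ∃ σ : Asg s, ∀ w, w <:+ s →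
    (complete s q).q w = σ.1 w := by
  classical
  refine ⟨⟨fun w => if w <:+ s then (complete s q).q w else none, ?_, ?_, ?_⟩, ?_⟩
  · intro w hw
    exact if_neg hw
  · show (if ([] : Node) <:+ s then (complete s q).q [] else none) = none
    rw [if_pos (List.nil_suffix)]
    exact (complete s q).nil
  · intro a u hau
    show ∃ v ≤ a, (if (a :: u) <:+ s then (complete s q).q (a :: u) else none) = some v
    rw [if_pos hau]
    cases hq : (complete s q).q (a :: u) with
    | none =>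
      exfalso
      simp only [complete] at hq
      split_ifs at hq with h1
      exact h1 ⟨hau, by simp, hq⟩
    | some v => exact ⟨v, (complete s q).bdd a u v hq, rfl⟩
  · intro w hw
    exact (if_pos hw).symm

theorem EE_no_halfCohen : ¬ EE.AddsHalfCohen := by
  rintro ⟨x, ⟨p0, q0⟩, hx⟩
  obtain ⟨s, hs⟩ := p0.h
  let c₀ : St3 := ⟨p0, s, hs, q0, 0⟩
  have hc : c₀.k = 0 := rfl
  obtain ⟨⟨r, q2⟩, hr, n, k, -, hval, hg⟩ := hx (gName x c₀ hc) 0 ⟨Tstar x c₀, qstar x c₀⟩
    ⟨Tstar_le x c₀, qstar_le x c₀⟩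
  have hrT : r ≤ Tstar x c₀ := hr.1
  have hrq : EE.le r q2 (qstar x c₀) := hr.2
  rcases hg with ⟨-, σ, h1, h2, h3, V, h4, h5⟩ | ⟨h1, -⟩
  · obtain ⟨t, ht⟩ := r.h
    have hut : (S3 x c₀ σ).s <:+ t := (PQ_spec x (S3 x c₀ σ)).2.1.stem_le ht h3
    obtain ⟨ρ, hρ⟩ := complete_asg (S3 x c₀ σ).s q2
    have hz1 : (⟨r, complete (S3 x c₀ σ).s q2⟩ : EE.Iter) ≤ ⟨r, q2⟩ :=
      ⟨le_refl r, fun w _ v hv => complete_eq_of_some hv⟩
    have hz2 : (⟨r, complete (S3 x c₀ σ).s q2⟩ : EE.Iter) ≤ ⟨r, ov (S3 x c₀ σ).s ρ (QQ x (S3 x c₀ σ))⟩ := by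
      refine ⟨le_refl r, ?_⟩
      intro w hw v hv
      have hv' : (ov (S3 x c₀ σ).s ρ (QQ x (S3 x c₀ σ))).q w = some v := hv
      show (complete (S3 x c₀ σ).s q2).q w = some v
      by_cases hwu : w <:+ (S3 x c₀ σ).s
      · rw [hρ w hwu]
        rw [ov_pos ρ _ hwu] at hv'
        exact hv'
      · rw [ov_neg ρ _ hwu] at hv'
        have huw : (S3 x c₀ σ).s <:+ w := by
          rcases ht.comp w hw with h6 | h6
          · rcases List.suffix_or_suffix_of_suffix h6 hut with h7 | h7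
            · exact absurd h7 hwu
            · exact h7
          · exact hut.trans h6
        have hne : w ≠ (S3 x c₀ σ).s := fun he => hwu (he ▸ List.suffix_refl _)
        exact complete_eq_of_some (hrq w hw v (qstar_ext x c₀ σ (hrT hw) huw hne hv'))
    obtain ⟨z, hz, hzv⟩ := (h4 ρ) _ hz2
    have h6 := x.single (x.mono (hz.trans hz1) hval) hzv
    have h7 : V ρ ≤ ⨆ ρ, V ρ := le_ciSup (Set.finite_range V).bddAbove ρ
    omega
  · exact h1 r (le_refl r) hrT

end Main

/-! ### The iteration adds a half-Cohen real -/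

/-- Give `q` the value `v` at the node `a :: u`. -/
noncomputable def upd (q : QCond) (a : ℕ) (u : Node) (v : ℕ) (hv : v ≤ a) : QCond where
  q := Function.update q.q (a :: u) (some v)
  nil := by
    rw [Function.update_of_ne (by simp)]
    exact q.nil
  bdd := by
    intro b w v' h
    by_cases hb : b :: w = a :: u
    · rw [hb, Function.update_self] at h
      rw [List.cons.injEq] at hb
      rw [hb.1, ← Option.some.inj h]
      exact hv
    · rw [Function.update_of_ne hb] at h
      exact q.bdd b w v' h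
  inf := inf_of_eventually (q := q.q) (q' := Function.update q.q (a :: u) (some v)) (a :: u)
    (fun w hw => Function.update_of_ne (fun he : w = a :: u => hw (by rw [he])) _ _) q.inf

theorem upd_le {q : QCond} {a : ℕ} {u : Node} {v : ℕ} (hv : v ≤ a) (hq : q.q (a :: u) = none)
    (p : Laver) : EE.le p (upd q a u v hv) q := by
  intro w _ v' hv'
  show Function.update q.q (a :: u) (some v) w = some v'
  rw [Function.update_of_ne]
  · exact hv'
  · rintro rfl
    have : q.q (a :: u) = some v' := hv'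
    rw [hq] at this
    exact absurd this (by simp)

theorem suffix_or_of_suffix_restrict {T : Set Node} {u w x : Node} (hw : w <:+ u)
    (hx : x ∈ restrict T u) : x <:+ w ∨ w <:+ x := by
  rcases hx.2 with h | h
  · rcases List.suffix_or_suffix_of_suffix h hw with h1 | h1
    · exact Or.inl h1
    · exact Or.inr h1
  · exact Or.inr (hw.trans h)

/-- The name of the generic half-Cohen real. -/
def cName : RealName EE.Iter where
  val := fun n v z => ∃ w ∈ z.fst.T, w.length = n + 1 ∧ (∀ u ∈ z.fst.T, u <:+ w ∨ w <:+ u) ∧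
    QCond.q z.snd w = some v
  mono := by
    rintro n v z z' hz ⟨w, hw, hl, hc, hq⟩
    obtain ⟨t, ht⟩ := z'.fst.h
    obtain ⟨u, hu, -, hlen⟩ := ht.exists_long (n + 1)
    have hwu : w <:+ u := by
      rcases hc u (hz.1 hu) with h | h
      · have := suffix_eq_of_length h (by omega)
        rw [this]
      · exact h
    have hw' : w ∈ z'.fst.T := ht.suffix u w hu hwu
    exact ⟨w, hw', hl, fun u hu => hc u (hz.1 hu), hz.2 w hw' v hq⟩
  total := by
    rintro n ⟨p, q⟩
    obtain ⟨s, hs⟩ := p.h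
    obtain ⟨u, hu, hsu, hlen⟩ := hs.exists_long (n + 1)
    have hw : u.drop (u.length - (n + 1)) <:+ u := List.drop_suffix _ _
    have hwl : (u.drop (u.length - (n + 1))).length = n + 1 := by
      rw [List.length_drop]; omega
    generalize u.drop (u.length - (n + 1)) = w at hw hwl
    have hL := hs.restrict hu hsu
    have hwm : w ∈ restrict p.T u := ⟨hs.suffix u w hu hw, Or.inl hw⟩
    cases hq : QCond.q q w with
    | some v =>
      exact ⟨⟨⟨restrict p.T u, u, hL⟩, q⟩, ⟨restrict_subset _ _, EE.refl _ _⟩, v, w, hwm, hwl,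
        fun x hx => suffix_or_of_suffix_restrict hw hx, hq⟩
    | none =>
      cases w with
      | nil => simp at hwl
      | cons a w =>
        refine ⟨⟨⟨restrict p.T u, u, hL⟩, upd q a w 0 (Nat.zero_le a)⟩,
          ⟨restrict_subset _ _, upd_le (Nat.zero_le a) hq _⟩, 0, a :: w, hwm, hwl,
          fun x hx => suffix_or_of_suffix_restrict hw hx, ?_⟩
        exact Function.update_self _ _ _
  single := by
    rintro n v v' z ⟨w, hw, hl, hc, hq⟩ ⟨w', hw', hl', hc', hq'⟩
    have : w = w' := by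
      rcases hc w' hw' with h | h
      · exact (suffix_eq_of_length h (by omega)).symm
      · exact suffix_eq_of_length h (by omega)
    rw [this, hq'] at hq
    exact (Option.some.inj hq).symm

/-- Shrink a Laver tree so that the branch dominates `f` above the stem. -/
theorem dominate {T : Set Node} {s : Node} (h : IsLaver T s) (f : ℕ → ℕ) :
    ∃ T' ⊆ T, IsLaver T' s ∧ ∀ a u, a :: u ∈ T' → s <:+ u → f u.length ≤ a := by
  refine ⟨{w | w ∈ T ∧ ∀ a u, (a :: u) <:+ w → s <:+ u → f u.length ≤ a}, fun w hw => hw.1,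
    ⟨⟨h.mem, ?_⟩, ?_, fun u hu => h.comp u hu.1, ?_⟩, ?_⟩
  · intro a u h1 h2
    exfalso
    have h3 := h1.length_le
    have h4 := h2.length_le
    simp only [List.length_cons] at h3
    omega
  · rintro a u ⟨h1, h2⟩
    exact ⟨h.closed a u h1, fun b w hb hw => h2 b w (hb.trans (List.suffix_cons _ _)) hw⟩
  · rintro u ⟨h1, h2⟩ hsu
    refine ((h.split u h1 hsu).sdiff (Set.finite_Iio (f u.length))).mono ?_
    rintro a ⟨ha, hna⟩
    refine ⟨ha, fun b w hb hw => ?_⟩
    rcases List.suffix_cons_iff.1 hb with h3 | h3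
    · rw [List.cons.injEq] at h3
      rw [h3.1, h3.2]
      exact not_lt.1 hna
    · exact h2 b w h3 hw
  · intro a u hau hsu
    exact hau.2 a u (List.suffix_refl _) hsu

theorem EE_iter_halfCohen (z : EE.Iter) (f : ℕ → ℕ) : ForcesInfEq z cName f := by
  rintro N ⟨p, q⟩ -
  obtain ⟨s, hs⟩ := p.h
  obtain ⟨T', hT', hL, hdom⟩ := dominate hs f
  obtain ⟨g, hg, hg0, hgT⟩ := hL.exists_path hL.mem (List.suffix_refl s)
  obtain ⟨m, hm, hnone⟩ := QCond.inf q g hg (N + 1)
  obtain ⟨m', rfl⟩ : ∃ m', m = m' + 1 := ⟨m - 1, by omega⟩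
  obtain ⟨a, ha⟩ := hg m'
  have hfa : f (g m').length ≤ a := by
    apply hdom a (g m')
    · rw [← ha]; exact (hgT _).1
    · exact (hgT m').2
  rw [ha] at hnone
  have hmem : a :: g m' ∈ T' := by rw [← ha]; exact (hgT _).1
  have hL' := hL.restrict hmem ((hgT m').2.trans (List.suffix_cons _ _))
  have hlen : (g m').length = s.length + m' := by
    rw [hg.length m', hg0]
  refine ⟨⟨⟨restrict T' (a :: g m'), _, hL'⟩, upd q a (g m') (f (g m').length) hfa⟩,
    ⟨(restrict_subset _ _).trans hT', upd_le hfa hnone _⟩, (g m').length, by omega, ?_⟩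
  refine ⟨a :: g m', ⟨hmem, Or.inl (List.suffix_refl _)⟩, by simp, fun u hu => hu.2, ?_⟩
  exact Function.update_self _ _ _

/-- Conditions exist. -/
theorem iter_nonempty : Nonempty EE.Iter := by
  refine ⟨⟨⟨Set.univ, [], ⟨Set.mem_univ _, fun _ _ _ => Set.mem_univ _,
    fun u _ => Or.inr (List.nil_suffix), fun u _ _ => ?_⟩⟩, ⟨fun _ => none, rfl, ?_, ?_⟩⟩⟩
  · simp only [Set.mem_univ]
    exact Set.infinite_univ
  · intro a u v h
    exact absurd h (by simp)
  · intro g _ N
    exact ⟨N, le_rfl, rfl⟩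

/-- **Theorem.** There are a forcing notion `P` (Laver forcing) which adds no half-Cohen real and
a `P`-name `Q` for a forcing notion which is forced to add no half-Cohen real over the
intermediate model, such that the two-step iteration `P * Q` adds a half-Cohen real over the
ground model (every condition forces that). -/
theorem main : ∃ (P : Type) (_ : PartialOrder P) (Q : PosetName P),
    Nonempty P ∧ ¬ AddsHalfCohen P ∧ ¬ Q.AddsHalfCohen ∧ AddsHalfCohen Q.Iter ∧
    ∃ x : RealName Q.Iter, ∀ (r : Q.Iter) (f : ℕ → ℕ), ForcesInfEq r x f := by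
  refine ⟨Laver, inferInstance, EE, iter_nonempty.map (fun z => z.fst), laver_no_halfCohen,
    EE_no_halfCohen, ?_, cName, EE_iter_halfCohen⟩
  obtain ⟨z⟩ := iter_nonempty
  exact ⟨cName, z, EE_iter_halfCohen z⟩

end Pool.Agent.W905.HalfCohen
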