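import Mathlib

set_option autoImplicit false

/-!
# The set-splitting game: player A has a winning strategy exactly on countable sets

Suppose that `σ` is a winning strategy of A on an uncountable set `E`. Fix a subset `K` of `E` of
size `ℵ₁`. For a position `p` at which B has to split the set `S p`, and for `e` in `E`, the tree of
all continuations of `p` in which `e` survives is well-founded; let `ρ p e` be its rank. Each move
makes this rank drop at all points that survive. For a set `S` and a function `f` from `E` to the
ordinals let `‖f‖ S` be the Galvin-Hajnal norm of `f` on `S` modulo the ideal of all sets which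
meet `K` in a countable set (`Large S α f` says that `‖f‖ S` is at least `α`); the norm on a
countable union is the minimum of the norms. Let `p` be a position at which `‖ρ p‖ (S p)` has its
minimal value `γ`. If B splits `S p` into `X` and `Y`, and A chooses `X`, then all positions
after this move have norm at least `γ`, so that `‖ρ p‖ X` is larger than `γ`. So the sets `X` with
`‖ρ p‖ X > γ` form a `σ`-complete prime ideal on `S p` which contains all sets that meet `K` in a
countable set. As `K` can be separated by countably many sets, there is no such ideal.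
-/

namespace Pool.Agent.W905.OnlyCountable

open Set Cardinal

universe u

/-- The sets `S 0 ⊇ S 1 ⊇ …` of a play. `S 0 = E`. The set `S n` is split into the two disjoint
sets `S n ∩ P n` and `S n \ P n`, and `S (n + 1)` is the first of them if `c n = true` and the
second of them if `c n = false`. -/
def sets {E : Type u} (P : ℕ → Set E) (c : ℕ → Bool) : ℕ → Set E
  | 0 => univ
  | n + 1 => if c n then sets P c n ∩ P n else sets P c n \ P n

/-- The history of a play: the list of the first `n` splittings and of the first `n` choices. -/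
def hist {E : Type u} (P : ℕ → Set E) (c : ℕ → Bool) (n : ℕ) : List (Set E × Bool) :=
  List.ofFn fun i : Fin n => (P i, c i)

/-- A strategy of player A. A splits the sets `S 0, S 2, S 4, …` and chooses the sets
`S 2, S 4, …`, each of them being one of the two parts into which B has split the previous set. The
strategy gives these moves from the finite history of the play. -/
structure Strategy (E : Type u) where
  /-- how to split `S n`, for even `n`, given the history -/
  split : List (Set E × Bool) → Set E
  /-- which part of `S n` to choose, for odd `n`, given the history and the splitting -/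
  choose : List (Set E × Bool) → Set E → Bool

/-- The strategy wins: in each play in which A follows it, the sets `S n` have empty
intersection, whatever B does. -/
def Strategy.Winning {E : Type u} (σ : Strategy E) : Prop :=
  ∀ (P : ℕ → Set E) (c : ℕ → Bool),
    (∀ n, Even n → P n = σ.split (hist P c n)) →
    (∀ n, Odd n → c n = σ.choose (hist P c n) (P n)) →
    ⋂ n, sets P c n = ∅

/-! ### The norm -/

/-- the rank of a well-founded relation -/
noncomputable def rk {α : Type u} {r : α → α → Prop} (h : WellFounded r) (a : α) : Ordinal.{u} :=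
  (h.apply a).rank

theorem rk_lt {α : Type u} {r : α → α → Prop} (h : WellFounded r) {a b : α} (hab : r a b) :
    rk h a < rk h b := Acc.rank_lt_of_rel _ hab

section Norm

variable {E : Type u} (K : Set E)

/-- The norm of `f` on `S` is at least `α`. -/
def Large (S : Set E) (α : Ordinal.{u + 1}) (f : E → Ordinal.{u}) : Prop :=
  ∀ β, (h : β < α) → ∃ g : E → Ordinal.{u}, {e | e ∈ S ∩ K ∧ ¬ g e < f e}.Countable ∧ Large S β g
termination_by α
decreasing_by exact h

theorem large_iff {S : Set E} {α : Ordinal.{u + 1}} {f : E → Ordinal.{u}} :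
    Large K S α f ↔ ∀ β < α, ∃ g : E → Ordinal.{u},
      {e | e ∈ S ∩ K ∧ ¬ g e < f e}.Countable ∧ Large K S β g := by
  rw [Large]

theorem Large.mono_ord {S : Set E} {α β : Ordinal.{u + 1}} {f : E → Ordinal.{u}}
    (h : Large K S α f) (hβ : β ≤ α) : Large K S β f := by
  rw [large_iff] at h ⊢
  exact fun b hb => h b (hb.trans_le hβ)

theorem Large.mono_set {S S' : Set E} (hS : S' ⊆ S) : ∀ {α : Ordinal.{u + 1}}
    {f : E → Ordinal.{u}}, Large K S α f → Large K S' α f := by
  intro α
  induction α using WellFoundedLT.induction with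
  | ind α ih =>
    intro f h
    rw [large_iff] at h ⊢
    intro β hβ
    obtain ⟨g, hg, hg'⟩ := h β hβ
    refine ⟨g, hg.mono ?_, ih β hβ hg'⟩
    rintro e ⟨⟨h1, h2⟩, h3⟩
    exact ⟨⟨hS h1, h2⟩, h3⟩

theorem Large.congr {S : Set E} {α : Ordinal.{u + 1}} {f f' : E → Ordinal.{u}}
    (hff : ∀ e ∈ S, f e = f' e) (h : Large K S α f) : Large K S α f' := by
  rw [large_iff] at h ⊢
  intro β hβ
  obtain ⟨g, hg, hg'⟩ := h β hβ
  refine ⟨g, hg.mono ?_, hg'⟩
  rintro e ⟨h1, h2⟩
  refine ⟨h1, ?_⟩
  rw [hff e h1.1]
  exact h2

theorem large_of_small {S : Set E} (hS : (S ∩ K).Countable) : ∀ {α : Ordinal.{u + 1}}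
    {f : E → Ordinal.{u}}, Large K S α f := by
  intro α
  induction α using WellFoundedLT.induction with
  | ind α ih =>
    intro f
    rw [large_iff]
    intro β hβ
    exact ⟨f, hS.mono fun e he => he.1, ih β hβ⟩

theorem large_iUnion_disj {S : ℕ → Set E} (hS : ∀ m n e, e ∈ S m → e ∈ S n → m = n) :
    ∀ {α : Ordinal.{u + 1}} {f : E → Ordinal.{u}}, (∀ n, Large K (S n) α f) →
      Large K (⋃ n, S n) α f := by
  classical
  intro α
  induction α using WellFoundedLT.induction with
  | ind α ih =>
    intro f h
    rw [large_iff]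
    intro β hβ
    have h' : ∀ n, ∃ g : E → Ordinal.{u},
      {e | e ∈ S n ∩ K ∧ ¬ g e < f e}.Countable ∧ Large K (S n) β g :=
      fun n => (large_iff K).1 (h n) β hβ
    choose g hg hg' using h'
    let G : E → Ordinal.{u} := fun e => if h : ∃ n, e ∈ S n then g h.choose e else 0
    have hG : ∀ n, ∀ e ∈ S n, g n e = G e := by
      intro n e he
      have hex : ∃ n, e ∈ S n := ⟨n, he⟩
      simp only [G, dif_pos hex]
      rw [hS _ _ e hex.choose_spec he]
    refine ⟨G, ?_, ih β hβ fun n => (hg' n).congr K (hG n)⟩
    refine (countable_iUnion hg).mono ?_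
    rintro e ⟨⟨he, heK⟩, hlt⟩
    obtain ⟨n, hn⟩ := mem_iUnion.1 he
    refine mem_iUnion.2 ⟨n, ⟨hn, heK⟩, ?_⟩
    rw [hG n e hn]
    exact hlt

theorem large_iUnion {S : ℕ → Set E} {α : Ordinal.{u + 1}} {f : E → Ordinal.{u}}
    (h : ∀ n, Large K (S n) α f) : Large K (⋃ n, S n) α f := by
  rw [← iUnion_disjointed]
  refine large_iUnion_disj K ?_ fun n => (h n).mono_set K (disjointed_subset S n)
  intro m n e hm hn
  by_contra hne
  exact (disjoint_disjointed S hne).le_bot ⟨hm, hn⟩

theorem large_union {S T : Set E} {α : Ordinal.{u + 1}} {f : E → Ordinal.{u}}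
    (hS : Large K S α f) (hT : Large K T α f) : Large K (S ∪ T) α f := by
  have h : Large K (⋃ n : ℕ, if n = 0 then S else T) α f := large_iUnion K fun n => by
    by_cases hn : n = 0
    · simpa [hn] using hS
    · simpa [hn] using hT
  refine h.mono_set K ?_
  rintro x (hx | hx)
  · exact mem_iUnion.2 ⟨0, by simpa using hx⟩
  · exact mem_iUnion.2 ⟨1, by simpa using hx⟩

theorem Large.succ {S : Set E} {α : Ordinal.{u + 1}} {f g : E → Ordinal.{u}}
    (h : Large K S α g) (hlt : ∀ e ∈ S, g e < f e) : Large K S (Order.succ α) f := by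
  rw [large_iff]
  intro β hβ
  refine ⟨g, ?_, h.mono_ord K (Order.lt_succ_iff.1 hβ)⟩
  convert countable_empty
  ext e
  simp only [mem_ofPred_eq, mem_empty_iff_false, iff_false, not_and, not_not]
  exact fun he => hlt e he.1

/-- the relation `g < f` modulo the ideal is well-founded if `S` is not in the ideal -/
theorem exists_not_large {S : Set E} (hS : ¬ (S ∩ K).Countable) (f : E → Ordinal.{u}) :
    ∃ α, ¬ Large K S α f := by
  let r : (E → Ordinal.{u}) → (E → Ordinal.{u}) → Prop :=
    fun g f => {e | e ∈ S ∩ K ∧ ¬ g e < f e}.Countable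
  have hr : WellFounded r := by
    rw [wellFounded_iff_isEmpty_descending_chain]
    refine ⟨fun ⟨F, hF⟩ => ?_⟩
    have h1 : (⋃ n, {e | e ∈ S ∩ K ∧ ¬ F (n + 1) e < F n e}).Countable := countable_iUnion hF
    obtain ⟨e, he, hne⟩ : ∃ e ∈ S ∩ K, e ∉ ⋃ n, {e | e ∈ S ∩ K ∧ ¬ F (n + 1) e < F n e} := by
      by_contra hcon
      refine hS (h1.mono fun e he => ?_)
      by_contra hne
      exact hcon ⟨e, he, hne⟩
    have h2 : ∀ n, F (n + 1) e < F n e := by
      intro n
      by_contra hlt
      exact hne (mem_iUnion.2 ⟨n, he, hlt⟩)
    have h3 := (wellFounded_iff_isEmpty_descending_chain (r := ((· < ·) : Ordinal.{u} → _ → Prop))).1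
      Ordinal.lt_wf
    exact h3.false ⟨fun n => F n e, h2⟩
  refine ⟨Order.succ (rk hr f), ?_⟩
  induction f using hr.induction with
  | _ f ih =>
    intro h
    rw [large_iff] at h
    obtain ⟨g, hg, hg'⟩ := h _ (Order.lt_succ _)
    exact ih g hg (hg'.mono_ord K (Order.succ_le_of_lt (rk_lt hr hg)))

end Norm

/-! ### Positions -/

section Game

variable {E : Type u}

/-- the current set after a history -/
def cur (h : List (Set E × Bool)) : Set E :=
  h.foldl (fun S m => if m.2 then S ∩ m.1 else S \ m.1) univ

theorem cur_append (h : List (Set E × Bool)) (m : Set E × Bool) :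
    cur (h ++ [m]) = if m.2 then cur h ∩ m.1 else cur h \ m.1 := by
  simp [cur]

theorem cur_append_subset (h : List (Set E × Bool)) (m : Set E × Bool) :
    cur (h ++ [m]) ⊆ cur h := by
  rw [cur_append]
  split_ifs
  · exact inter_subset_left
  · exact sdiff_subset

theorem hist_succ (P : ℕ → Set E) (c : ℕ → Bool) (n : ℕ) :
    hist P c (n + 1) = hist P c n ++ [(P n, c n)] := by
  unfold hist
  rw [List.ofFn_succ_last]
  simp

theorem length_hist (P : ℕ → Set E) (c : ℕ → Bool) (n : ℕ) : (hist P c n).length = n := by
  simp [hist]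

theorem sets_eq (P : ℕ → Set E) (c : ℕ → Bool) (n : ℕ) : sets P c n = cur (hist P c n) := by
  induction n with
  | zero => simp [sets, hist, cur]
  | succ n ih => rw [hist_succ, cur_append, ← ih, sets]

theorem sets_antitone (P : ℕ → Set E) (c : ℕ → Bool) : Antitone (sets P c) := by
  refine antitone_nat_of_succ_le fun n => ?_
  rw [sets_eq, sets_eq, hist_succ]
  exact cur_append_subset _ _

variable (σ : Strategy E)

/-- A has followed the strategy and B has to split. -/
def Good (h : List (Set E × Bool)) : Prop :=
  Odd h.length ∧ ∀ n (hn : n < h.length), (Even n → (h[n]).1 = σ.split (h.take n)) ∧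
    (Odd n → (h[n]).2 = σ.choose (h.take n) (h[n]).1)

/-- the position after B has split by `X`, A has answered, and B has made the choice `i` -/
def next (h : List (Set E × Bool)) (X : Set E) (i : Bool) : List (Set E × Bool) :=
  (h ++ [(X, σ.choose h X)]) ++ [(σ.split (h ++ [(X, σ.choose h X)]), i)]

theorem length_next (h : List (Set E × Bool)) (X : Set E) (i : Bool) :
    (next σ h X i).length = h.length + 2 := by
  simp [next]

theorem good_next {h : List (Set E × Bool)} (hh : Good σ h) (X : Set E) (i : Bool) :
    Good σ (next σ h X i) := by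
  obtain ⟨h1, h2⟩ := hh
  refine ⟨?_, ?_⟩
  · rw [length_next]
    exact h1.add_even even_two
  · intro n hn
    rw [length_next] at hn
    rcases Nat.lt_trichotomy n h.length with hlt | heq | hgt
    · have e1 : (next σ h X i)[n]'(by rw [length_next]; exact hn) = h[n] := by
        simp only [next]
        rw [List.getElem_append_left (by simp; omega), List.getElem_append_left hlt]
      have e2 : (next σ h X i).take n = h.take n := by
        simp only [next]
        rw [List.take_append_of_le_length (by simp; omega), List.take_append_of_le_length hlt.le]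
      rw [e1, e2]
      exact h2 n hlt
    · subst heq
      have e1 : (next σ h X i)[h.length]'(by rw [length_next]; exact hn) = (X, σ.choose h X) := by
        simp [next]
      have e2 : (next σ h X i).take h.length = h := by
        simp [next]
      rw [e1, e2]
      refine ⟨fun he => absurd h1 (Nat.not_odd_iff_even.2 he), fun _ => rfl⟩
    · have hn' : n = h.length + 1 := by omega
      subst hn'
      have e1 : (next σ h X i)[h.length + 1]'(by rw [length_next]; exact hn) =
          (σ.split (h ++ [(X, σ.choose h X)]), i) := by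
        simp [next]
      have e2 : (next σ h X i).take (h.length + 1) = h ++ [(X, σ.choose h X)] := by
        simp only [next]
        rw [List.take_append_of_le_length (by simp)]
        simp
      rw [e1, e2]
      refine ⟨fun _ => rfl, fun ho => ?_⟩
      have := Nat.not_even_iff_odd.2 ho
      exact absurd (h1.add_odd odd_one) this

theorem prefix_next (h : List (Set E × Bool)) (X : Set E) (i : Bool) : h <+: next σ h X i := by
  simp only [next, List.append_assoc]
  exact List.prefix_append _ _

theorem good_init (i : Bool) : Good σ [(σ.split [], i)] := by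
  refine ⟨by simp, fun n hn => ?_⟩
  have : n = 0 := by simpa using hn
  subst this
  exact ⟨fun _ => by simp, fun h => by simp at h⟩

/-- The relation between a position and the next one, if `e` survives. -/
def Rel (e : E) (q p : {h : List (Set E × Bool) // Good σ h}) : Prop :=
  (∃ X i, q.1 = next σ p.1 X i) ∧ e ∈ cur q.1

theorem wf_Rel (hσ : σ.Winning) (e : E) : WellFounded (Rel σ e) := by
  rw [wellFounded_iff_isEmpty_descending_chain]
  refine ⟨fun ⟨F, hF⟩ => ?_⟩
  have hpre : ∀ k, (F k).1 <+: (F (k + 1)).1 := by
    intro k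
    obtain ⟨⟨X, i, h⟩, -⟩ := hF k
    rw [h]
    exact prefix_next σ _ _ _
  have hlen : ∀ k, (F k).1.length = (F 0).1.length + 2 * k := by
    intro k
    induction k with
    | zero => simp
    | succ k ih =>
      obtain ⟨⟨X, i, h⟩, -⟩ := hF k
      rw [h, length_next, ih]
      ring
  have hpos : 0 < (F 0).1.length := (F 0).2.1.pos
  have hpre' : ∀ k l, k ≤ l → (F k).1 <+: (F l).1 := by
    intro k l hkl
    induction l, hkl using Nat.le_induction with
    | base => exact List.prefix_refl _
    | succ l _ ih => exact ih.trans (hpre l)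
  let m : ℕ → Set E × Bool := fun n => (F n).1[n]'(by rw [hlen]; omega)
  have hm : ∀ k n (hn : n < (F k).1.length), (F k).1[n] = m n := by
    intro k n hn
    simp only [m]
    have hn' : n < (F n).1.length := by rw [hlen]; omega
    rcases le_total k n with h | h
    · exact (hpre' k n h).getElem hn
    · exact ((hpre' n k h).getElem hn').symm
  let P : ℕ → Set E := fun n => (m n).1
  let c : ℕ → Bool := fun n => (m n).2
  have hhist : ∀ k n, n ≤ (F k).1.length → hist P c n = (F k).1.take n := by
    intro k n hn
    refine List.ext_getElem (by rw [length_hist]; simp [hn]) fun i h1 h2 => ?_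
    rw [List.getElem_take, hm]
    simp [hist, P, c]
  have hlt : ∀ n, n < (F n).1.length := by intro n; rw [hlen]; omega
  have hempty : ⋂ n, sets P c n = ∅ := by
    refine hσ P c (fun n hn => ?_) (fun n hn => ?_)
    · rw [hhist n n (hlt n).le, ← ((F n).2.2 n (hlt n)).1 hn]
    · rw [hhist n n (hlt n).le]
      exact ((F n).2.2 n (hlt n)).2 hn
  have hmem : e ∈ ⋂ n, sets P c n := by
    refine mem_iInter.2 fun n => ?_
    have h1 : n ≤ (F (n + 1)).1.length := by rw [hlen]; omega
    refine sets_antitone P c h1 ?_
    rw [sets_eq, hhist (n + 1) _ le_rfl, List.take_length]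
    exact (hF n).2
  rw [hempty] at hmem
  exact hmem

end Game

/-- The main part: there is no winning strategy of A on an uncountable set. -/
theorem not_winning {E : Type u} (hE : Uncountable E) (σ : Strategy E) : ¬ σ.Winning := by
  classical
  intro hσ
  -- a set of size `ℵ₁`, and a map which separates its points by countably many sets
  obtain ⟨K, hK⟩ : ∃ K : Set E, #K = ℵ₁ := by
    rw [← le_mk_iff_exists_set]
    rw [← Cardinal.succ_aleph0]
    exact Order.succ_le_of_lt (Cardinal.aleph0_lt_mk_iff.2 hE)
  have hKu : ¬ K.Countable := by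
    rw [← Cardinal.le_aleph0_iff_set_countable, hK, not_le]
    exact Cardinal.aleph0_lt_aleph_one
  obtain ⟨ι⟩ : Nonempty (K ↪ (ℕ → Bool)) := by
    rw [← Cardinal.lift_mk_le']
    have h1 : #(ℕ → Bool) = 𝔠 := by simp
    rw [hK, h1]
    simpa using Cardinal.aleph_one_le_continuum
  let Pos := {h : List (Set E × Bool) // Good σ h}
  let ρ : Pos → E → Ordinal.{u} := fun p e => rk (wf_Rel σ hσ e) p
  -- a position of minimal norm
  have hex : ∃ α : Ordinal.{u + 1}, ∃ p : Pos, ¬ Large K (cur p.1) α (ρ p) := by
    by_contra hcon
    push Not at hcon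
    have h1 : ∀ i : Bool, (cur [(σ.split [], i)] ∩ K).Countable := by
      intro i
      by_contra hi
      obtain ⟨α, hα⟩ := exists_not_large K hi (ρ ⟨_, good_init σ i⟩)
      exact hα (hcon α ⟨_, good_init σ i⟩)
    apply hKu
    refine ((h1 true).union (h1 false)).mono fun e he => ?_
    by_cases hs : e ∈ σ.split []
    · left; exact ⟨by simp [cur, hs], he⟩
    · right; exact ⟨by simp [cur, hs], he⟩
  set A : Set Ordinal.{u + 1} := {α | ∃ p : Pos, ¬ Large K (cur p.1) α (ρ p)} with hA
  have hAne : A.Nonempty := hex
  obtain ⟨α, hα, hmin⟩ : ∃ α ∈ A, ∀ β < α, β ∉ A :=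
    ⟨sInf A, csInf_mem hAne, fun β hβ hβA => not_lt.2 (csInf_le' hβA) hβ⟩
  obtain ⟨p, hp⟩ := hα
  obtain ⟨γ, hγα, hγ⟩ : ∃ γ < α, ¬ Large K (cur p.1) (Order.succ γ) (ρ p) := by
    by_contra hcon
    apply hp
    rw [large_iff]
    intro γ hγ
    by_contra hno
    refine hcon ⟨γ, hγ, fun hL => ?_⟩
    rw [large_iff] at hL
    exact hno (hL γ (Order.lt_succ _))
  have hall : ∀ q : Pos, Large K (cur q.1) γ (ρ q) := by
    intro q
    by_contra h
    exact hmin γ hγα ⟨q, h⟩
  -- the ideal is prime
  have hprime : ∀ X : Set E, Large K (cur p.1 ∩ X) (Order.succ γ) (ρ p) ∨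
      Large K (cur p.1 \ X) (Order.succ γ) (ρ p) := by
    intro X
    set h' := p.1 ++ [(X, σ.choose p.1 X)] with hh'
    have hkey : Large K (cur h') (Order.succ γ) (ρ p) := by
      let q : Bool → Pos := fun i => ⟨next σ p.1 X i, good_next σ p.2 X i⟩
      have hq1 : cur (q true).1 = cur h' ∩ σ.split h' := by
        simp only [q, next]
        rw [cur_append]
        simp [hh']
      have hq2 : cur (q false).1 = cur h' \ σ.split h' := by
        simp only [q, next]
        rw [cur_append]
        simp [hh']
      let g : E → Ordinal.{u} := fun e => if e ∈ σ.split h' then ρ (q true) e else ρ (q false) e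
      have hg : Large K (cur h') γ g := by
        have h1 : Large K (cur h' ∩ σ.split h') γ g := by
          rw [← hq1]
          refine (hall (q true)).congr K fun e he => ?_
          rw [hq1] at he
          simp only [g, if_pos he.2]
        have h2 : Large K (cur h' \ σ.split h') γ g := by
          rw [← hq2]
          refine (hall (q false)).congr K fun e he => ?_
          rw [hq2] at he
          simp only [g, if_neg he.2]
        have h3 := large_union K h1 h2
        rwa [inter_union_sdiff] at h3
      refine hg.succ K fun e he => ?_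
      by_cases hs : e ∈ σ.split h'
      · simp only [g, if_pos hs]
        refine rk_lt (wf_Rel σ hσ e) ⟨⟨X, true, rfl⟩, ?_⟩
        rw [hq1]
        exact ⟨he, hs⟩
      · simp only [g, if_neg hs]
        refine rk_lt (wf_Rel σ hσ e) ⟨⟨X, false, rfl⟩, ?_⟩
        rw [hq2]
        exact ⟨he, hs⟩
    rw [hh', cur_append] at hkey
    split_ifs at hkey
    · exact Or.inl hkey
    · exact Or.inr hkey
  -- there is no such prime ideal
  let X : ℕ → Set E := fun n => {e | ∃ h : e ∈ K, ι ⟨e, h⟩ n = true}
  let N : ℕ → Set E := fun n =>
    if Large K (cur p.1 ∩ X n) (Order.succ γ) (ρ p) then cur p.1 ∩ X n else cur p.1 \ X n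
  have hN : ∀ n, Large K (N n) (Order.succ γ) (ρ p) := by
    intro n
    by_cases h : Large K (cur p.1 ∩ X n) (Order.succ γ) (ρ p)
    · simp only [N, if_pos h]
      exact h
    · simp only [N, if_neg h]
      exact (hprime (X n)).resolve_left h
  have hN1 : Large K (⋃ n, N n) (Order.succ γ) (ρ p) := large_iUnion K hN
  have hN2 : Large K (cur p.1 \ ⋃ n, N n) (Order.succ γ) (ρ p) := by
    apply large_of_small
    apply Set.Subsingleton.countable
    rintro e ⟨⟨he, heN⟩, heK⟩ e' ⟨⟨he', heN'⟩, heK'⟩
    have hι : ι ⟨e, heK⟩ = ι ⟨e', heK'⟩ := by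
      funext n
      have h1 : e ∉ N n := fun h => heN (mem_iUnion.2 ⟨n, h⟩)
      have h2 : e' ∉ N n := fun h => heN' (mem_iUnion.2 ⟨n, h⟩)
      have h3 : e ∈ X n ↔ e' ∈ X n := by
        by_cases h : Large K (cur p.1 ∩ X n) (Order.succ γ) (ρ p)
        · simp only [N, if_pos h, mem_inter_iff, not_and] at h1 h2
          exact iff_of_false (h1 he) (h2 he')
        · simp only [N, if_neg h, mem_sdiff, not_and, not_not] at h1 h2
          exact iff_of_true (h1 he) (h2 he')
      simp only [X, mem_ofPred_eq] at h3
      have h4 : ι ⟨e, heK⟩ n = true ↔ ι ⟨e', heK'⟩ n = true := by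
        constructor
        · intro h
          obtain ⟨_, h'⟩ := h3.1 ⟨heK, h⟩
          exact h'
        · intro h
          obtain ⟨_, h'⟩ := h3.2 ⟨heK', h⟩
          exact h'
      exact Bool.eq_iff_iff.2 h4
    have := ι.injective hι
    exact congrArg Subtype.val this
  refine hγ ((large_union K hN1 hN2).mono_set K fun e he => ?_)
  by_cases h : e ∈ ⋃ n, N n
  · exact Or.inl h
  · exact Or.inr ⟨he, h⟩

/-- Player A has a winning strategy in the set-splitting game on `E` if and only if `E` is
countable. -/
theorem result (E : Type u) : (∃ σ : Strategy E, σ.Winning) ↔ Countable E := by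
  classical
  constructor
  · rintro ⟨σ, hσ⟩
    by_contra hE
    exact not_winning (not_countable_iff.1 hE) σ hσ
  · intro hE
    rcases isEmpty_or_nonempty E with hem | hne
    · exact ⟨⟨fun _ => ∅, fun _ _ => true⟩, fun P c _ _ => Set.eq_empty_of_isEmpty _⟩
    · obtain ⟨e, he⟩ := exists_surjective_nat E
      refine ⟨⟨fun _ => ∅, fun h X => decide (e (h.length / 2) ∉ X)⟩, fun P c _ h2 => ?_⟩
      rw [Set.eq_empty_iff_forall_notMem]
      intro x hx
      obtain ⟨k, rfl⟩ := he x
      have h3 := mem_iInter.1 hx (2 * k + 1 + 1)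
      have h4 := h2 (2 * k + 1) ⟨k, rfl⟩
      simp only [length_hist] at h4
      have h5 : (2 * k + 1) / 2 = k := by omega
      rw [h5] at h4
      rw [sets] at h3
      by_cases hX : e k ∈ P (2 * k + 1)
      · rw [h4] at h3
        simp [hX] at h3
      · rw [h4] at h3
        simp [hX] at h3

end Pool.Agent.W905.OnlyCountable
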